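import Pool.Agent.Helper9.INSHC.Defs
import Pool.Agent.Helper9.CRT.Proof

/-!
In ZF, `BPI` implies that every set of pairwise disjoint two-element sets has a choice set.
-/

namespace Pool.Agent.Helper9.INSHC

open Pool.Agent.Helper9.CRT Pool.Agent.Helper73.Sym

set_option synthInstance.maxSize 2000

section

variable {M : Type*} [Membership M M] [IsZF M]

/-- equivalence class of `Z` modulo the ideal `J` of subsets of `Y` -/
noncomputable def cl (Y J Z : M) : M := sep (pw Y) (fun W => df Z W ∈ J ∧ df W Z ∈ J)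

theorem mem_cl {Y J Z W : M} : W ∈ cl Y J Z ↔ Sub W Y ∧ df Z W ∈ J ∧ df W Z ∈ J := by
  rw [cl, mem_sep, mem_pw]

instance DT.cl' (Y J : M) {t : (ℕ → M) → M} [ht : DT t] : DT (fun v => cl Y J (t v)) :=
  DT.app1 (Dfn.congr (S := fun v : ℕ → M => ∀ z, z ∈ v 0 ↔
      (Sub z Y ∧ df (v 1) z ∈ J ∧ df z (v 1) ∈ J)) inferInstance
    fun v => ⟨fun h z => by rw [h, mem_cl], fun h => mext fun z => by rw [h, mem_cl]⟩) ht

noncomputable def BB (Y J : M) : M :=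
  sep (pw (pw Y)) (fun b => ∃ Z, Sub Z Y ∧ b = cl Y J Z)

theorem mem_BB {Y J b : M} : b ∈ BB Y J ↔ ∃ Z, Sub Z Y ∧ b = cl Y J Z := by
  rw [BB, mem_sep, mem_pw]
  constructor
  · exact fun h => h.2
  · rintro ⟨Z, hZ, rfl⟩
    refine ⟨fun W hW => ?_, Z, hZ, rfl⟩
    rw [mem_pw]
    exact (mem_cl.1 hW).1

noncomputable def LL (Y J : M) : M :=
  Helper73.Sym.rel (BB Y J) (BB Y J)
    (fun b b' => ∃ Z W, Sub Z Y ∧ Sub W Y ∧ b = cl Y J Z ∧ b' = cl Y J W ∧ df Z W ∈ J)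

/-- `J` is a proper ideal of subsets of `Y` -/
structure PropIdeal (Y J : M) : Prop where
  sub : ∀ Z : M, Z ∈ J → Sub Z Y
  down : ∀ Z W : M, Z ∈ J → Sub W Z → W ∈ J
  union : ∀ Z W : M, Z ∈ J → W ∈ J → un2 Z W ∈ J
  zero : (emp : M) ∈ J
  proper : ¬ Y ∈ J

namespace PropIdeal

variable {Y J : M} (hJ : PropIdeal Y J)

include hJ

theorem mem_of {A B C : M} (hB : B ∈ J) (hC : C ∈ J) (h : ∀ z, z ∈ A → z ∈ B ∨ z ∈ C) : A ∈ J :=
  hJ.down _ _ (hJ.union _ _ hB hC) fun z hz => (mem_un2 _ _ _).2 (h z hz)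

theorem mem_of_empty {A : M} (h : ∀ z, ¬ z ∈ A) : A ∈ J :=
  hJ.down _ _ hJ.zero fun z hz => absurd hz (h z)

theorem cl_eq {Z W : M} (_hZ : Sub Z Y) (hW : Sub W Y) :
    cl Y J Z = cl Y J W ↔ df Z W ∈ J ∧ df W Z ∈ J := by
  constructor
  · intro h
    have h1 : W ∈ cl Y J W := mem_cl.2 ⟨hW, hJ.mem_of_empty (by simp), hJ.mem_of_empty (by simp)⟩
    rw [← h, mem_cl] at h1
    exact h1.2
  · rintro ⟨h1, h2⟩
    apply mext
    intro V
    rw [mem_cl, mem_cl]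
    constructor
    · rintro ⟨h3, h4, h5⟩
      exact ⟨h3, hJ.mem_of h2 h4 (by intro z; simp only [mem_df]; tauto),
        hJ.mem_of h5 h1 (by intro z; simp only [mem_df]; tauto)⟩
    · rintro ⟨h3, h4, h5⟩
      exact ⟨h3, hJ.mem_of h1 h4 (by intro z; simp only [mem_df]; tauto),
        hJ.mem_of h5 h2 (by intro z; simp only [mem_df]; tauto)⟩

theorem le_iff {Z W : M} (hZ : Sub Z Y) (hW : Sub W Y) :
    Rel (LL Y J) (cl Y J Z) (cl Y J W) ↔ df Z W ∈ J := by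
  rw [rel_iff, LL, op_mem_rel]
  constructor
  · rintro ⟨-, -, Z', W', hZ', hW', h1, h2, h3⟩
    rw [hJ.cl_eq hZ hZ'] at h1
    rw [hJ.cl_eq hW hW'] at h2
    refine hJ.mem_of h1.1 (hJ.union _ _ h3 h2.2) ?_
    intro z
    simp only [mem_df, mem_un2]
    tauto
  · intro h
    exact ⟨mem_BB.2 ⟨Z, hZ, rfl⟩, mem_BB.2 ⟨W, hW, rfl⟩, Z, W, hZ, hW, rfl, rfl, h⟩

theorem antisymm {a b : M} (ha : a ∈ BB Y J) (hb : b ∈ BB Y J) (h1 : Rel (LL Y J) a b)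
    (h2 : Rel (LL Y J) b a) : a = b := by
  obtain ⟨Z, hZ, rfl⟩ := mem_BB.1 ha
  obtain ⟨W, hW, rfl⟩ := mem_BB.1 hb
  rw [hJ.le_iff hZ hW] at h1
  rw [hJ.le_iff hW hZ] at h2
  exact (hJ.cl_eq hZ hW).2 ⟨h1, h2⟩

theorem isInf {Z W : M} (hZ : Sub Z Y) (hW : Sub W Y) :
    IsInf (BB Y J) (LL Y J) (cl Y J Z) (cl Y J W) (cl Y J (in2 Z W)) := by
  have hI : Sub (in2 Z W) Y := fun z hz => hZ z ((mem_in2 _ _ _).1 hz).1
  refine ⟨mem_BB.2 ⟨_, hI, rfl⟩, (hJ.le_iff hI hZ).2 (hJ.mem_of_empty fun z => ?_),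
    (hJ.le_iff hI hW).2 (hJ.mem_of_empty fun z => ?_), fun w hw h1 h2 => ?_⟩
  · simp only [mem_df, mem_in2]; tauto
  · simp only [mem_df, mem_in2]; tauto
  · obtain ⟨V, hV, rfl⟩ := mem_BB.1 hw
    rw [hJ.le_iff hV hZ] at h1
    rw [hJ.le_iff hV hW] at h2
    rw [hJ.le_iff hV hI]
    refine hJ.mem_of h1 h2 fun z => ?_
    simp only [mem_df, mem_in2]; tauto

theorem isSup {Z W : M} (hZ : Sub Z Y) (hW : Sub W Y) :
    IsSup (BB Y J) (LL Y J) (cl Y J Z) (cl Y J W) (cl Y J (un2 Z W)) := by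
  have hI : Sub (un2 Z W) Y := fun z hz => by
    rcases (mem_un2 _ _ _).1 hz with h | h
    · exact hZ z h
    · exact hW z h
  refine ⟨mem_BB.2 ⟨_, hI, rfl⟩, (hJ.le_iff hZ hI).2 (hJ.mem_of_empty fun z => ?_),
    (hJ.le_iff hW hI).2 (hJ.mem_of_empty fun z => ?_), fun w hw h1 h2 => ?_⟩
  · simp only [mem_df, mem_un2]; tauto
  · simp only [mem_df, mem_un2]; tauto
  · obtain ⟨V, hV, rfl⟩ := mem_BB.1 hw
    rw [hJ.le_iff hZ hV] at h1
    rw [hJ.le_iff hW hV] at h2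
    rw [hJ.le_iff hI hV]
    refine hJ.mem_of h1 h2 fun z => ?_
    simp only [mem_df, mem_un2]; tauto

theorem inf_unique {x y a b : M} (ha : IsInf (BB Y J) (LL Y J) x y a)
    (hb : IsInf (BB Y J) (LL Y J) x y b) : a = b :=
  hJ.antisymm ha.1 hb.1 (hb.2.2.2 a ha.1 ha.2.1 ha.2.2.1) (ha.2.2.2 b hb.1 hb.2.1 hb.2.2.1)

theorem sup_unique {x y a b : M} (ha : IsSup (BB Y J) (LL Y J) x y a)
    (hb : IsSup (BB Y J) (LL Y J) x y b) : a = b :=
  hJ.antisymm ha.1 hb.1 (ha.2.2.2 b hb.1 hb.2.1 hb.2.2.1) (hb.2.2.2 a ha.1 ha.2.1 ha.2.2.1)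

theorem isBooleanAlgebra : IsBooleanAlgebra (BB Y J) (LL Y J) := by
  refine ⟨?_, fun x y => hJ.antisymm, ?_, ?_, ?_, ?_, cl Y J emp, cl Y J Y, ?_, ?_, ?_, ?_⟩
  · intro x hx
    obtain ⟨Z, hZ, rfl⟩ := mem_BB.1 hx
    rw [hJ.le_iff hZ hZ]
    exact hJ.mem_of_empty (by simp)
  · intro x y z hx hy hz h1 h2
    obtain ⟨X, hX, rfl⟩ := mem_BB.1 hx
    obtain ⟨Y', hY, rfl⟩ := mem_BB.1 hy
    obtain ⟨Z, hZ, rfl⟩ := mem_BB.1 hz
    rw [hJ.le_iff hX hY] at h1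
    rw [hJ.le_iff hY hZ] at h2
    rw [hJ.le_iff hX hZ]
    refine hJ.mem_of h1 h2 fun z => ?_
    simp only [mem_df]; tauto
  · intro x y hx hy
    obtain ⟨X, hX, rfl⟩ := mem_BB.1 hx
    obtain ⟨Y', hY, rfl⟩ := mem_BB.1 hy
    exact ⟨_, hJ.isInf hX hY⟩
  · intro x y hx hy
    obtain ⟨X, hX, rfl⟩ := mem_BB.1 hx
    obtain ⟨Y', hY, rfl⟩ := mem_BB.1 hy
    exact ⟨_, hJ.isSup hX hY⟩
  · intro x y z s a b c hx hy hz hs ha hb hc
    obtain ⟨X, hX, rfl⟩ := mem_BB.1 hx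
    obtain ⟨Y', hY, rfl⟩ := mem_BB.1 hy
    obtain ⟨Z, hZ, rfl⟩ := mem_BB.1 hz
    have hYZ : Sub (un2 Y' Z) Y := fun z hz => by
      rcases (mem_un2 _ _ _).1 hz with h | h
      · exact hY z h
      · exact hZ z h
    have hXY : Sub (in2 X Y') Y := fun z hz => hX z ((mem_in2 _ _ _).1 hz).1
    have hXZ : Sub (in2 X Z) Y := fun z hz => hX z ((mem_in2 _ _ _).1 hz).1
    obtain rfl := hJ.sup_unique hs (hJ.isSup hY hZ)
    obtain rfl := hJ.inf_unique ha (hJ.isInf hX hYZ)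
    obtain rfl := hJ.inf_unique hb (hJ.isInf hX hY)
    obtain rfl := hJ.inf_unique hc (hJ.isInf hX hZ)
    have h1 : in2 X (un2 Y' Z) = un2 (in2 X Y') (in2 X Z) := by
      apply mext; intro z
      simp only [mem_in2, mem_un2]; tauto
    rw [h1]
    exact hJ.isSup hXY hXZ
  · have he : Sub emp Y := fun z hz => absurd hz (mem_emp z)
    refine ⟨mem_BB.2 ⟨_, he, rfl⟩, fun x hx => ?_⟩
    obtain ⟨X, hX, rfl⟩ := mem_BB.1 hx
    rw [hJ.le_iff he hX]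
    exact hJ.mem_of_empty (by simp)
  · have hY : Sub Y Y := fun z hz => hz
    refine ⟨mem_BB.2 ⟨_, hY, rfl⟩, fun x hx => ?_⟩
    obtain ⟨X, hX, rfl⟩ := mem_BB.1 hx
    rw [hJ.le_iff hX hY]
    refine hJ.mem_of_empty fun z => ?_
    simp only [mem_df]
    exact fun h => h.2 (hX z h.1)
  · intro h
    rw [hJ.cl_eq (fun z hz => absurd hz (mem_emp z)) (fun z hz => hz)] at h
    refine hJ.proper (hJ.down _ _ h.2 fun z hz => ?_)
    simp [hz]
  · intro x hx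
    obtain ⟨X, hX, rfl⟩ := mem_BB.1 hx
    have hX' : Sub (df Y X) Y := fun z hz => ((mem_df _ _ _).1 hz).1
    refine ⟨cl Y J (df Y X), mem_BB.2 ⟨_, hX', rfl⟩, ?_, ?_⟩
    · have h1 : in2 X (df Y X) = emp := mext fun z => by
        simp only [mem_in2, mem_df, mem_emp]; tauto
      have := hJ.isInf hX hX'
      rwa [h1] at this
    · have h1 : un2 X (df Y X) = Y := mext fun z => by
        simp only [mem_un2, mem_df]
        constructor
        · rintro (h | h)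
          · exact hX z h
          · exact h.1
        · intro h
          by_cases h2 : z ∈ X
          · exact Or.inl h2
          · exact Or.inr ⟨h, h2⟩
      have := hJ.isSup hX hX'
      rwa [h1] at this

end PropIdeal

/-- `BPI` for ideals of sets -/
theorem exists_prime (h : BPI M) {Y J : M} (hJ : PropIdeal Y J) :
    ∃ I : M, (∀ Z, Z ∈ J → Z ∈ I) ∧ (∀ Z W, Z ∈ I → W ∈ I → un2 Z W ∈ I) ∧
      (∀ Z W, Sub Z Y → Sub W Y → in2 Z W ∈ I → Z ∈ I ∨ W ∈ I) ∧ ¬ Y ∈ I := by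
  obtain ⟨I, h1, h2, h3, h4, h5, h6⟩ := h _ _ hJ.isBooleanAlgebra
  have he : Sub (emp : M) Y := fun z hz => absurd hz (mem_emp z)
  have hleast : IsLeast (BB Y J) (LL Y J) (cl Y J emp) := by
    refine ⟨mem_BB.2 ⟨_, he, rfl⟩, fun x hx => ?_⟩
    obtain ⟨X, hX, rfl⟩ := mem_BB.1 hx
    rw [hJ.le_iff he hX]
    exact hJ.mem_of_empty (by simp)
  have hgreat : IsGreatest (BB Y J) (LL Y J) (cl Y J Y) := by
    have hY : Sub Y Y := fun z hz => hz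
    refine ⟨mem_BB.2 ⟨_, hY, rfl⟩, fun x hx => ?_⟩
    obtain ⟨X, hX, rfl⟩ := mem_BB.1 hx
    rw [hJ.le_iff hX hY]
    refine hJ.mem_of_empty fun z => ?_
    simp only [mem_df]
    exact fun h => h.2 (hX z h.1)
  refine ⟨sep (pw Y) (fun Z => cl Y J Z ∈ I), ?_, ?_, ?_, ?_⟩
  · intro Z hZ
    rw [mem_sep, mem_pw]
    refine ⟨hJ.sub Z hZ, h4 _ _ (mem_BB.2 ⟨_, hJ.sub Z hZ, rfl⟩) (h2 _ hleast) ?_⟩
    rw [hJ.le_iff (hJ.sub Z hZ) he]
    exact hJ.down _ _ hZ fun z hz => ((mem_df _ _ _).1 hz).1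
  · intro Z W hZ hW
    rw [mem_sep, mem_pw] at hZ hW ⊢
    refine ⟨fun z hz => ?_, h5 _ _ _ hZ.2 hW.2 (hJ.isSup hZ.1 hW.1)⟩
    rcases (mem_un2 _ _ _).1 hz with h | h
    · exact hZ.1 z h
    · exact hW.1 z h
  · intro Z W hZ hW hI
    rw [mem_sep, mem_pw] at hI
    rcases h6 _ _ _ (mem_BB.2 ⟨_, hZ, rfl⟩) (mem_BB.2 ⟨_, hW, rfl⟩) (hJ.isInf hZ hW) hI.2 with h | h
    · left; rw [mem_sep, mem_pw]; exact ⟨hZ, h⟩
    · right; rw [mem_sep, mem_pw]; exact ⟨hW, h⟩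
  · intro hY
    rw [mem_sep, mem_pw] at hY
    exact h3 _ hgreat hY.2

end

section

variable {M : Type*} [Membership M M] [StdZF M]

theorem isFin_un2 {x y : M} (hx : IsFin x) (hy : IsFin y) : IsFin (un2 x y) := by
  rw [isFin_iff] at *
  refine (hx.union hy).subset fun z hz => ?_
  exact (mem_un2 x y z).1 hz

/-- **`BPI` implies choice for disjoint pairs.** -/
theorem exists_choice_of_bpi (h : BPI M) (A : M)
    (hA : ∀ P, P ∈ A → ∃ x y : M, x ≠ y ∧ P = upair x y)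
    (hdis : ∀ P Q x : M, P ∈ A → Q ∈ A → x ∈ P → x ∈ Q → P = Q) :
    ∃ C : M, ∀ P, P ∈ A → ∃! x : M, x ∈ P ∧ x ∈ C := by
  classical
  set Y : M := sep (pw (sUn A)) (fun y => IsFin y ∧ ∀ P : M, P ∈ A → ¬ Sub P y) with hY
  have mY : ∀ y, y ∈ Y ↔ Sub y (sUn A) ∧ IsFin y ∧ ∀ P, P ∈ A → ¬ Sub P y := by
    intro y; rw [hY, mem_sep, mem_pw]
  set J : M := sep (pw Y) (fun Z => ∃ F : M, IsFin F ∧ Sub F A ∧
    ∀ y : M, y ∈ Z → ∃ P : M, P ∈ F ∧ ∀ x : M, x ∈ P → ¬ x ∈ y) with hJdef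
  have mJ : ∀ Z, Z ∈ J ↔ Sub Z Y ∧ ∃ F, IsFin F ∧ Sub F A ∧
      ∀ y, y ∈ Z → ∃ P, P ∈ F ∧ ∀ x, x ∈ P → ¬ x ∈ y := by
    intro y; rw [hJdef, mem_sep, mem_pw]
  have hemp : IsFin (emp : M) := by
    rw [isFin_iff]
    have : {z : M | z ∈ (emp : M)} = ∅ := by ext z; simp
    rw [this]; exact Set.finite_empty
  have hJ : PropIdeal Y J := by
    refine ⟨fun Z hZ => ((mJ Z).1 hZ).1, ?_, ?_, ?_, ?_⟩
    · intro Z W hZ hW
      obtain ⟨h1, F, hF, hFA, h2⟩ := (mJ Z).1 hZ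
      exact (mJ W).2 ⟨fun z hz => h1 z (hW z hz), F, hF, hFA, fun y hy => h2 y (hW y hy)⟩
    · intro Z W hZ hW
      obtain ⟨h1, F, hF, hFA, h2⟩ := (mJ Z).1 hZ
      obtain ⟨h1', F', hF', hFA', h2'⟩ := (mJ W).1 hW
      refine (mJ _).2 ⟨fun z hz => ?_, un2 F F', isFin_un2 hF hF', fun z hz => ?_,
        fun y hy => ?_⟩
      · rcases (mem_un2 _ _ _).1 hz with h | h
        · exact h1 z h
        · exact h1' z h
      · rcases (mem_un2 _ _ _).1 hz with h | h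
        · exact hFA z h
        · exact hFA' z h
      · rcases (mem_un2 _ _ _).1 hy with h | h
        · obtain ⟨P, hP, h3⟩ := h2 y h
          exact ⟨P, (mem_un2 _ _ _).2 (Or.inl hP), h3⟩
        · obtain ⟨P, hP, h3⟩ := h2' y h
          exact ⟨P, (mem_un2 _ _ _).2 (Or.inr hP), h3⟩
    · exact (mJ _).2 ⟨fun z hz => absurd hz (mem_emp z), emp, hemp,
        fun z hz => absurd hz (mem_emp z), fun y hy => absurd hy (mem_emp y)⟩
    · intro hYJ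
      obtain ⟨-, F, hF, hFA, h2⟩ := (mJ Y).1 hYJ
      rw [isFin_iff] at hF
      -- a choice function on the finite set `F`
      have hne : ∀ P : M, ∃ x : M, P ∈ F → x ∈ P := by
        intro P
        by_cases hP : P ∈ F
        · obtain ⟨x, y, -, rfl⟩ := hA P (hFA P hP)
          exact ⟨x, fun _ => by simp⟩
        · exact ⟨P, fun h => absurd h hP⟩
      choose ch hch using hne
      obtain ⟨y, hy, hyfin⟩ := exists_finite_set (M := M) (hF.image ch)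
      have hyY : y ∈ Y := by
        refine (mY y).2 ⟨?_, hyfin, ?_⟩
        · intro z hz
          obtain ⟨P, hP, rfl⟩ := (hy z).1 hz
          exact (mem_sUn _ _).2 ⟨P, hFA P hP, hch P hP⟩
        · intro P hP hsub
          obtain ⟨a, b, hab, rfl⟩ := hA P hP
          obtain ⟨Q, hQ, hQa⟩ := (hy a).1 (hsub a (by simp))
          obtain ⟨Q', hQ', hQb⟩ := (hy b).1 (hsub b (by simp))
          have e1 : upair a b = Q := hdis _ _ a hP (hFA Q hQ) (by simp)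
            (by rw [← hQa]; exact hch Q hQ)
          have e2 : upair a b = Q' := hdis _ _ b hP (hFA Q' hQ') (by simp)
            (by rw [← hQb]; exact hch Q' hQ')
          apply hab
          rw [← hQa, ← hQb, ← e1, ← e2]
      obtain ⟨P, hP, h3⟩ := h2 y hyY
      exact h3 (ch P) (hch P hP) ((hy _).2 ⟨P, hP, rfl⟩)
  obtain ⟨I, h1, h2, h3, h4⟩ := exists_prime h hJ
  refine ⟨sep (sUn A) (fun x => ¬ (∃ Z : M, Z ∈ I ∧ ∀ y : M, y ∈ Z ↔ (y ∈ Y ∧ x ∈ y))), fun P hP => ?_⟩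
  obtain ⟨a, b, hab, rfl⟩ := hA P hP
  -- the two sets
  let YY : M → M := fun x => sep Y (fun y => x ∈ y)
  have mYY : ∀ x y, y ∈ YY x ↔ y ∈ Y ∧ x ∈ y := fun x y => mem_sep _ _ _
  have hYY : ∀ x, (∃ Z, Z ∈ I ∧ ∀ y, y ∈ Z ↔ (y ∈ Y ∧ x ∈ y)) ↔ YY x ∈ I := by
    intro x
    constructor
    · rintro ⟨Z, hZ, hZ'⟩
      have : Z = YY x := mext fun y => by rw [hZ', mYY]
      rwa [← this]
    · intro h
      exact ⟨_, h, mYY x⟩
  have hor : YY a ∈ I ∨ YY b ∈ I := by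
    refine h3 _ _ (fun z hz => ((mYY _ _).1 hz).1) (fun z hz => ((mYY _ _).1 hz).1) (h1 _ ?_)
    refine hJ.mem_of_empty fun y hy => ?_
    rw [mem_in2, mYY, mYY] at hy
    refine ((mY y).1 hy.1.1).2.2 _ hP fun z hz => ?_
    rw [mem_upair] at hz
    rcases hz with rfl | rfl
    · exact hy.1.2
    · exact hy.2.2
  have hnand : ¬ (YY a ∈ I ∧ YY b ∈ I) := by
    rintro ⟨ha, hb⟩
    have hrest : df Y (un2 (YY a) (YY b)) ∈ J := by
      refine (mJ _).2 ⟨fun z hz => ((mem_df _ _ _).1 hz).1, upair (upair a b) (upair a b), ?_, ?_, ?_⟩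
      · rw [isFin_iff]
        refine (Set.finite_singleton (upair a b)).subset fun z hz => ?_
        simpa using hz
      · intro z hz
        simp only [mem_upair, or_self] at hz
        rw [hz]; exact hP
      · intro y hy
        refine ⟨upair a b, by simp, fun x hx hxy => ?_⟩
        rw [mem_df, mem_un2, mYY, mYY] at hy
        rw [mem_upair] at hx
        rcases hx with rfl | rfl
        · exact hy.2 (Or.inl ⟨hy.1, hxy⟩)
        · exact hy.2 (Or.inr ⟨hy.1, hxy⟩)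
    have h5 := h2 _ _ (h2 _ _ ha hb) (h1 _ hrest)
    apply h4
    have e : un2 (un2 (YY a) (YY b)) (df Y (un2 (YY a) (YY b))) = Y := mext fun z => by
      simp only [mem_un2, mem_df, mYY]
      constructor
      · rintro ((h | h) | h)
        · exact h.1
        · exact h.1
        · exact h.1
      · intro h
        by_cases h6 : (z ∈ Y ∧ a ∈ z) ∨ (z ∈ Y ∧ b ∈ z)
        · exact Or.inl h6
        · exact Or.inr ⟨h, h6⟩
    rwa [e] at h5
  have hmem : ∀ x, x ∈ upair a b → x ∈ sUn A := fun x hx => (mem_sUn _ _).2 ⟨_, hP, hx⟩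
  have key : ∀ x, x ∈ sep (sUn A) (fun x => ¬ (∃ Z : M, Z ∈ I ∧ ∀ y : M, y ∈ Z ↔ (y ∈ Y ∧ x ∈ y))) ↔
      x ∈ sUn A ∧ ¬ YY x ∈ I := by
    intro x
    rw [mem_sep, hYY]
  rcases hor with h | h
  · refine ⟨b, ⟨by simp, (key b).2 ⟨hmem b (by simp), fun hb => hnand ⟨h, hb⟩⟩⟩, ?_⟩
    rintro x ⟨hx1, hx2⟩
    rw [mem_upair] at hx1
    rcases hx1 with rfl | rfl
    · exact absurd h ((key x).1 hx2).2
    · rfl
  · refine ⟨a, ⟨by simp, (key a).2 ⟨hmem a (by simp), fun hb => hnand ⟨hb, h⟩⟩⟩, ?_⟩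
    rintro x ⟨hx1, hx2⟩
    rw [mem_upair] at hx1
    rcases hx1 with rfl | rfl
    · rfl
    · exact absurd h ((key x).1 hx2).2

end

end Pool.Agent.Helper9.INSHC
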