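import Pool.Agent.Helper9.INSHC.Bool

/-!
In ZF: if the Cantor cube is a remainder of the discrete space on `D`, then there is a sequence
of nonempty families of almost equal subsets of `D`, members of different families not being
almost equal.
-/

namespace Pool.Agent.Helper9.INSHC

open Pool.Agent.Helper9.CRT Pool.Agent.Helper73.Sym

set_option synthInstance.maxSize 2000

section

variable {M : Type*} [Membership M M] [IsZF M]

theorem isFun_iff {f X Y : M} : IsFun f X Y ↔ Fn f X Y := by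
  constructor
  · rintro ⟨h1, h2⟩
    refine ⟨fun z hz => ?_, fun x hx => ?_⟩
    · obtain ⟨x, y, hx, hy, h⟩ := h1 z hz
      exact ⟨x, hx, y, hy, isOPair_iff.1 h⟩
    · obtain ⟨y, hy, h⟩ := h2 x hx
      exact ⟨y, rel_iff.1 hy, fun c hc => h c (rel_iff.2 hc)⟩
  · rintro ⟨h1, h2⟩
    refine ⟨fun z hz => ?_, fun x hx => ?_⟩
    · obtain ⟨x, hx, y, hy, h⟩ := h1 z hz
      exact ⟨x, y, hx, hy, isOPair_iff.2 h⟩
    · obtain ⟨y, hy, h⟩ := h2 x hx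
      exact ⟨y, rel_iff.2 hy, fun c hc => h c (rel_iff.1 hc)⟩

theorem rel_iff_ap {f X Y x y : M} (hf : Fn f X Y) : Rel f x y ↔ x ∈ X ∧ y = ap f x := by
  rw [rel_iff, op_mem_iff hf]

/-! ### topology -/

section

variable {K T : M} (hT : IsTopology K T)

include hT

theorem top_in2 {U V : M} (hU : U ∈ T) (hV : V ∈ T) : in2 U V ∈ T := by
  obtain ⟨W, hW, h⟩ := hT.2.2.1 U V hU hV
  have : W = in2 U V := mext fun z => by rw [h, mem_in2]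
  rwa [← this]

theorem top_sUn {S : M} (hS : Sub S T) : sUn S ∈ T := by
  obtain ⟨W, hW, h⟩ := hT.2.2.2 S hS
  have : W = sUn S := mext fun z => by rw [h, mem_sUn]
  rwa [← this]

theorem top_un2 {U V : M} (hU : U ∈ T) (hV : V ∈ T) : un2 U V ∈ T := by
  refine top_sUn hT fun z hz => ?_
  rw [mem_upair] at hz
  rcases hz with rfl | rfl
  · exact hU
  · exact hV

end

end

section

variable {M : Type*} [Membership M M] [StdZF M]

variable {K T : M}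

/-- finite intersections -/
theorem exists_inter (hT : IsTopology K T) (P : M → M → Prop)
    (hP : ∀ V W W' : M, P V W → Sub W' W → P V W')
    (Q : M) (hQ : Sub Q K) {s : Set M} (hs : s.Finite)
    (h : ∀ V ∈ s, ∃ W : M, W ∈ T ∧ Sub Q W ∧ P V W) :
    ∃ W : M, W ∈ T ∧ Sub Q W ∧ ∀ V ∈ s, P V W := by
  induction s, hs using Set.Finite.induction_on with
  | empty => exact ⟨K, hT.2.1, hQ, by simp⟩
  | @insert a s _ hs ih =>
    obtain ⟨W, h1, h2, h3⟩ := ih fun V hV => h V (Or.inr hV)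
    obtain ⟨W', h1', h2', h3'⟩ := h a (Or.inl rfl)
    refine ⟨in2 W W', top_in2 hT h1 h1', fun z hz => (mem_in2 _ _ _).2 ⟨h2 z hz, h2' z hz⟩, ?_⟩
    rintro V (rfl | hV)
    · exact hP _ _ _ h3' fun z hz => ((mem_in2 _ _ _).1 hz).2
    · exact hP _ _ _ (h3 V hV) fun z hz => ((mem_in2 _ _ _).1 hz).1

/-- separating a closed set -/
theorem separate (hT : IsTopology K T) (hK : IsCompact K T) {P Q : M} (hP : Sub P K)
    (hPc : df K P ∈ T) (hQ : Sub Q K)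
    (h : ∀ y : M, y ∈ P → ∃ V W : M, V ∈ T ∧ W ∈ T ∧ y ∈ V ∧ Sub Q W ∧ ∀ z : M, ¬ (z ∈ V ∧ z ∈ W)) :
    ∃ V W : M, V ∈ T ∧ W ∈ T ∧ Sub P V ∧ Sub Q W ∧ ∀ z : M, ¬ (z ∈ V ∧ z ∈ W) := by
  obtain ⟨F, hF, hFfin, hFcov⟩ := hK
    (sep T (fun V => V = df K P ∨ ∃ W : M, W ∈ T ∧ Sub Q W ∧ ∀ z : M, ¬ (z ∈ V ∧ z ∈ W)))
    (fun z hz => ((mem_sep _ _ _).1 hz).1) (fun x hx => by
      by_cases hxP : x ∈ P
      · obtain ⟨V, W, hV, hW, h1, h2, h3⟩ := h x hxP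
        exact ⟨V, (mem_sep _ _ _).2 ⟨hV, Or.inr ⟨W, hW, h2, h3⟩⟩, h1⟩
      · exact ⟨df K P, (mem_sep _ _ _).2 ⟨hPc, Or.inl rfl⟩, (mem_df _ _ _).2 ⟨hx, hxP⟩⟩)
  rw [isFinite_iff] at hFfin
  let F₁ : M := sep F (fun V => ∃ W : M, W ∈ T ∧ Sub Q W ∧ ∀ z : M, ¬ (z ∈ V ∧ z ∈ W))
  have mF₁ : ∀ V, V ∈ F₁ ↔ V ∈ F ∧ ∃ W : M, W ∈ T ∧ Sub Q W ∧ ∀ z : M, ¬ (z ∈ V ∧ z ∈ W) :=
    fun V => mem_sep _ _ _
  obtain ⟨W, hW, hQW, hW'⟩ := exists_inter hT (fun V W => ∀ z : M, ¬ (z ∈ V ∧ z ∈ W))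
    (fun V W W' h1 h2 z hz => h1 z ⟨hz.1, h2 z hz.2⟩) Q hQ
    (s := {V : M | V ∈ F₁}) (hFfin.subset fun V hV => ((mF₁ V).1 hV).1)
    (fun V hV => ((mF₁ V).1 hV).2)
  refine ⟨sUn F₁, W, top_sUn hT fun V hV => ((mem_sep _ _ _).1 (hF V ((mF₁ V).1 hV).1)).1, hW,
    fun y hy => ?_, hQW, fun z hz => ?_⟩
  · obtain ⟨V, hV, hyV⟩ := hFcov y (hP y hy)
    rw [mem_sUn]
    refine ⟨V, (mF₁ V).2 ⟨hV, ?_⟩, hyV⟩
    rcases ((mem_sep _ _ _).1 (hF V hV)).2 with h1 | h1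
    · rw [h1, mem_df] at hyV
      exact absurd hy hyV.2
    · exact h1
  · obtain ⟨V, hV, hzV⟩ := (mem_sUn _ _).1 hz.1
    exact hW' V hV z ⟨hzV, hz.2⟩

/-- compact Hausdorff spaces are normal -/
theorem normal (hT : IsTopology K T) (hK : IsCompact K T) (hH : IsHausdorff K T) {P Q : M}
    (hP : Sub P K) (hPc : df K P ∈ T) (hQ : Sub Q K) (hQc : df K Q ∈ T)
    (hPQ : ∀ z : M, ¬ (z ∈ P ∧ z ∈ Q)) :
    ∃ V W : M, V ∈ T ∧ W ∈ T ∧ Sub P V ∧ Sub Q W ∧ ∀ z : M, ¬ (z ∈ V ∧ z ∈ W) := by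
  refine separate hT hK hP hPc hQ fun y hy => ?_
  have hy' : Sub (upair y y) K := fun z hz => by
    simp only [mem_upair, or_self] at hz
    rw [hz]; exact hP y hy
  obtain ⟨V, W, hV, hW, h1, h2, h3⟩ := separate hT hK hQ hQc hy' (fun x hx => by
    have hne : x ≠ y := fun h => hPQ y ⟨hy, h ▸ hx⟩
    obtain ⟨U, V, hU, hV, h1, h2, h3⟩ := hH x y (hQ x hx) (hP y hy) hne
    refine ⟨U, V, hU, hV, h1, fun z hz => ?_, h3⟩
    simp only [mem_upair, or_self] at hz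
    rw [hz]; exact h2)
  exact ⟨W, V, hW, hV, h2 y (by simp), h1, fun z hz => h3 z ⟨hz.2, hz.1⟩⟩

/-- avoiding finitely many points -/
theorem avoid (hT : IsTopology K T) (hH : IsHausdorff K T) {r : M} (hr : r ∈ K) {s : Set M}
    (hs : s.Finite) (hsK : ∀ x ∈ s, x ∈ K ∧ x ≠ r) :
    ∃ W : M, W ∈ T ∧ r ∈ W ∧ ∀ x ∈ s, ¬ x ∈ W := by
  obtain ⟨W, hW, h1, h2⟩ := exists_inter hT (fun x W => ¬ x ∈ W)
    (fun V W W' h1 h2 h3 => h1 (h2 _ h3)) (upair r r) (fun z hz => by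
      simp only [mem_upair, or_self] at hz
      rw [hz]; exact hr) hs (fun x hx => by
      obtain ⟨U, V, hU, hV, h1, h2, h3⟩ := hH x r (hsK x hx).1 hr (hsK x hx).2
      refine ⟨V, hV, fun z hz => ?_, fun h4 => h3 x ⟨h1, h4⟩⟩
      simp only [mem_upair, or_self] at hz
      rw [hz]; exact h2)
  exact ⟨W, hW, h1 r (by simp), h2⟩

/-- the points of `D` are isolated in a compactification -/
theorem isolated {h D TD : M} (hD : IsDiscrete D TD) (hC : IsCompactification h D TD K T)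
    (hf : Fn h D K) {d : M} (hd : d ∈ D) : upair (ap h d) (ap h d) ∈ T := by
  obtain ⟨hT, hK, hH, ⟨-, hinj, hemb⟩, hdense⟩ := hC
  have hs : Sub (upair d d) D := fun z hz => by
    simp only [mem_upair, or_self] at hz
    rw [hz]; exact hd
  obtain ⟨V, hV, hV'⟩ := (hemb _ hs).1 ((hD _).2 hs)
  have hdV : ap h d ∈ V := (hV' d _ hd ((rel_iff_ap hf).2 ⟨hd, rfl⟩)).1 (by simp)
  have : V = upair (ap h d) (ap h d) := by
    apply mext
    intro z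
    simp only [mem_upair, or_self]
    constructor
    · intro hz
      by_contra hne
      -- a smaller open set misses `h d`
      obtain ⟨W, hW, h1, h2⟩ := avoid hT hH (r := z) (hT.1 V hV z hz)
        (Set.finite_singleton (ap h d)) (by
          rintro x rfl
          exact ⟨ap_mem hf hd, fun h => hne h.symm⟩)
      obtain ⟨x, y, hx, hxy, hy⟩ := hdense (in2 V W) (top_in2 hT hV hW)
        ⟨z, (mem_in2 _ _ _).2 ⟨hz, h1⟩⟩
      rw [mem_in2] at hy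
      have h3 := (hV' x y hx hxy).2 hy.1
      simp only [mem_upair, or_self] at h3
      subst h3
      rw [rel_iff_ap hf] at hxy
      rw [hxy.2] at hy
      exact h2 _ rfl hy.2
    · rintro rfl
      exact hdV
  rwa [← this]

/-- the number one -/
noncomputable def oneM : M := upair emp emp

/-- the sets `h[U] ∪ {g φ : φ(n) = 1}` and `h[D ∖ U] ∪ {g φ : φ(n) ≠ 1}` are open -/
def Clo (D T h g C n U : M) : Prop :=
  (∃ O : M, O ∈ T ∧ ∀ y : M, y ∈ O ↔ (∃ x : M, x ∈ U ∧ y = ap h x) ∨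
    ∃ φ : M, φ ∈ C ∧ y = ap g φ ∧ op n oneM ∈ φ) ∧
  ∃ O : M, O ∈ T ∧ ∀ y : M, y ∈ O ↔ (∃ x : M, x ∈ D ∧ ¬ x ∈ U ∧ y = ap h x) ∨
    ∃ φ : M, φ ∈ C ∧ y = ap g φ ∧ ¬ op n oneM ∈ φ

instance Dfn.clo (D T h g C : M) {t u : (ℕ → M) → M} [ht : DT t] [hu : DT u] :
    Dfn (fun v => Clo D T h g C (t v) (u v)) :=
  Dfn.rel2 (R := Clo D T h g C) (inferInstanceAs (Dfn (fun v : ℕ → M =>
    (∃ O : M, O ∈ T ∧ ∀ y : M, y ∈ O ↔ (∃ x : M, x ∈ v 1 ∧ y = ap h x) ∨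
      ∃ φ : M, φ ∈ C ∧ y = ap g φ ∧ op (v 0) oneM ∈ φ) ∧
    ∃ O : M, O ∈ T ∧ ∀ y : M, y ∈ O ↔ (∃ x : M, x ∈ D ∧ ¬ x ∈ v 1 ∧ y = ap h x) ∨
      ∃ φ : M, φ ∈ C ∧ y = ap g φ ∧ ¬ op (v 0) oneM ∈ φ))) ht hu

/-- **The Cantor cube as a remainder.** -/
theorem exists_family {D TD C TC : M} (hD : IsDiscrete D TD) (hC : IsCantorCube C TC)
    (h : IsARemainderOf C TC D TD) :
    ∃ Γ : M, (∀ n : ℕ, ∃ U : M, Sub U D ∧ op (nat n) U ∈ Γ) ∧
      (∀ (n : ℕ) (U U' : M), op (nat n) U ∈ Γ → op (nat n) U' ∈ Γ →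
        {x : M | x ∈ D ∧ ¬ (x ∈ U ↔ x ∈ U')}.Finite) ∧
      (∀ (n m : ℕ) (U U' : M), n ≠ m → op (nat n) U ∈ Γ → op (nat m) U' ∈ Γ →
        ¬ {x : M | x ∈ D ∧ ¬ (x ∈ U ↔ x ∈ U')}.Finite) := by
  classical
  obtain ⟨h, K, T, R, TR, g, hcomp, hR, hTR, hg, hghomeo⟩ := h
  obtain ⟨w, t, hw, ht, hCm, hTC⟩ := hC
  obtain ⟨hT, hK, hH, ⟨hfun, hinj, hemb⟩, hdense⟩ := hcomp
  have hw' : w = om := mext fun n => by rw [hw, isNat_iff, mem_om]
  subst hw'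
  -- the number two
  have ht' : ∀ z, z ∈ t ↔ z = emp ∨ z = oneM := by
    obtain ⟨e, s, he, hs, hes⟩ := ht
    have he' : e = emp := mext fun z => iff_of_false (he z) (mem_emp z)
    subst he'
    have hs' : s = oneM := isPair_iff.1 hs
    subst hs'
    exact hes
  have hone : (oneM : M) ≠ emp := by
    intro h
    have h1 : (emp : M) ∈ (oneM : M) := by simp [oneM]
    rw [h] at h1
    exact mem_emp _ h1
  rw [isFun_iff] at hfun
  have hgf : Fn g C R := isFun_iff.1 hg.1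
  have hCf : ∀ φ, φ ∈ C ↔ Fn φ om t := fun φ => by rw [hCm, isFun_iff]
  have hginj : ∀ φ ψ : M, φ ∈ C → ψ ∈ C → ap g φ = ap g ψ → φ = ψ := by
    intro φ ψ hφ hψ he
    obtain ⟨x, -, hx⟩ := hg.2 (ap g φ) (ap_mem hgf hφ)
    rw [hx φ ((rel_iff_ap hgf).2 ⟨hφ, rfl⟩), hx ψ ((rel_iff_ap hgf).2 ⟨hψ, he⟩)]
  have hgsurj : ∀ r : M, r ∈ R → ∃ φ : M, φ ∈ C ∧ r = ap g φ := by
    intro r hr
    obtain ⟨φ, hφ, -⟩ := hg.2 r hr
    exact ⟨φ, (rel_iff_ap hgf).1 hφ⟩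
  have hhinj : ∀ x y : M, x ∈ D → y ∈ D → ap h x = ap h y → x = y := by
    intro x y hx hy he
    exact hinj x y (ap h x) ((rel_iff_ap hfun).2 ⟨hx, rfl⟩) ((rel_iff_ap hfun).2 ⟨hy, he⟩)
  have hRm : ∀ z, z ∈ R ↔ z ∈ K ∧ ¬ ∃ x : M, x ∈ D ∧ z = ap h x := by
    intro z
    rw [hR]
    refine and_congr_right fun _ => not_congr (exists_congr fun x => and_congr_right fun hx => ?_)
    rw [rel_iff_ap hfun]
    exact ⟨fun h => h.2, fun h => ⟨hx, h⟩⟩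
  have hDR : ∀ x φ : M, x ∈ D → φ ∈ C → ap h x ≠ ap g φ := by
    intro x φ hx hφ he
    exact ((hRm _).1 (ap_mem hgf hφ)).2 ⟨x, hx, he.symm⟩
  have hdense' : ∀ V : M, V ∈ T → (∃ y : M, y ∈ V) → ∃ x : M, x ∈ D ∧ ap h x ∈ V := by
    intro V hV hne
    obtain ⟨x, y, hx, hxy, hy⟩ := hdense V hV hne
    rw [rel_iff_ap hfun] at hxy
    exact ⟨x, hx, hxy.2 ▸ hy⟩
  have hiso : ∀ x : M, x ∈ D → upair (ap h x) (ap h x) ∈ T := fun x hx =>
    isolated hD ⟨hT, hK, hH, ⟨isFun_iff.2 hfun, hinj, hemb⟩, hdense⟩ hfun hx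
  -- images of subsets of `D` are open
  have himg : ∀ U : M, Sub U D → ∃ O : M, O ∈ T ∧ ∀ y : M, y ∈ O ↔ ∃ x : M, x ∈ U ∧ y = ap h x := by
    intro U hU
    refine ⟨sUn (sep T (fun V => ∃ x : M, x ∈ U ∧ V = upair (ap h x) (ap h x))), top_sUn hT
      fun z hz => ((mem_sep _ _ _).1 hz).1, fun y => ?_⟩
    rw [mem_sUn]
    constructor
    · rintro ⟨V, hV, hy⟩
      obtain ⟨-, x, hx, rfl⟩ := (mem_sep _ _ _).1 hV
      simp only [mem_upair, or_self] at hy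
      exact ⟨x, hx, hy⟩
    · rintro ⟨x, hx, rfl⟩
      exact ⟨_, (mem_sep _ _ _).2 ⟨hiso x (hU x hx), x, hx, rfl⟩, by simp⟩
  -- traces of the coordinate sets are relatively open
  have htrace : ∀ n : ℕ, (∃ V : M, V ∈ T ∧ ∀ φ : M, φ ∈ C → (ap g φ ∈ V ↔ op (nat n) oneM ∈ φ)) ∧
      ∃ V : M, V ∈ T ∧ ∀ φ : M, φ ∈ C → (ap g φ ∈ V ↔ ¬ op (nat n) oneM ∈ φ) := by
    intro n
    have key : ∀ P : M, (∀ φ, φ ∈ P → φ ∈ C) → (∀ φ ψ : M, φ ∈ P → ψ ∈ C →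
        (op (nat n) oneM ∈ φ ↔ op (nat n) oneM ∈ ψ) → ψ ∈ P) →
        ∃ V : M, V ∈ T ∧ ∀ φ : M, φ ∈ C → (ap g φ ∈ V ↔ φ ∈ P) := by
      intro P hPC hP
      have hPT : P ∈ TC := by
        rw [hTC]
        refine ⟨hPC, fun φ hφ => ⟨upair (nat n) (nat n), ?_, ?_, fun ψ hψ hagree => ?_⟩⟩
        · intro z hz
          simp only [mem_upair, or_self] at hz
          rw [hz]; exact nat_mem_om n
        · rw [isFinite_iff]
          refine (Set.finite_singleton (nat n : M)).subset fun z hz => ?_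
          simpa using hz
        · refine hP φ ψ hφ hψ ?_
          have := hagree (nat n) oneM (by simp)
          rwa [rel_iff, rel_iff] at this
      have hPR : sep R (fun r => ∃ φ : M, φ ∈ P ∧ r = ap g φ) ∈ TR := by
        refine (hghomeo P _ hPC (fun z hz => ((mem_sep _ _ _).1 hz).1) fun φ r hφ hφr => ?_).1 hPT
        rw [rel_iff_ap hgf] at hφr
        rw [mem_sep, hφr.2]
        constructor
        · intro h
          exact ⟨ap_mem hgf hφ, φ, h, rfl⟩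
        · rintro ⟨-, ψ, hψ, he⟩
          rw [hginj φ ψ hφ (hPC ψ hψ) he]; exact hψ
      obtain ⟨V, hV, hVR⟩ := (hTR _).1 hPR
      refine ⟨V, hV, fun φ hφ => ?_⟩
      have h1 := hVR (ap g φ)
      rw [mem_sep] at h1
      have hR' := ap_mem hgf hφ
      constructor
      · intro h2
        obtain ⟨-, ψ, hψ, he⟩ := h1.2 ⟨h2, hR'⟩
        rw [hginj φ ψ hφ (hPC ψ hψ) he]; exact hψ
      · intro h2
        exact (h1.1 ⟨hR', φ, h2, rfl⟩).1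
    constructor
    · obtain ⟨V, hV, h1⟩ := key (sep C (fun φ => op (nat n) oneM ∈ φ) (h := by exact inferInstance))
        (fun φ hφ => ((mem_sep _ _ _).1 hφ).1) (fun φ ψ hφ hψ he => by
          rw [mem_sep] at hφ ⊢
          exact ⟨hψ, he.1 hφ.2⟩)
      refine ⟨V, hV, fun φ hφ => ?_⟩
      rw [h1 φ hφ, mem_sep]
      exact ⟨fun h => h.2, fun h => ⟨hφ, h⟩⟩
    · obtain ⟨V, hV, h1⟩ := key (sep C (fun φ => ¬ op (nat n) oneM ∈ φ)
        (h := by exact inferInstance)) (fun φ hφ => ((mem_sep _ _ _).1 hφ).1)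
        (fun φ ψ hφ hψ he => by
          rw [mem_sep] at hφ ⊢
          exact ⟨hψ, fun h => hφ.2 (he.2 h)⟩)
      refine ⟨V, hV, fun φ hφ => ?_⟩
      rw [h1 φ hφ, mem_sep]
      exact ⟨fun h => h.2, fun h => ⟨hφ, h⟩⟩
  -- members of `K`
  have hKm : ∀ y : M, y ∈ K → (∃ x : M, x ∈ D ∧ y = ap h x) ∨ ∃ φ : M, φ ∈ C ∧ y = ap g φ := by
    intro y hy
    by_cases h1 : ∃ x : M, x ∈ D ∧ y = ap h x
    · exact Or.inl h1
    · exact Or.inr (hgsurj y ((hRm y).2 ⟨hy, h1⟩))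
  refine ⟨sep (prod om (pw D)) (fun z => ∃ n U : M, z = op n U ∧ Clo D T h g C n U), ?_, ?_, ?_⟩
  · -- existence
    intro n
    obtain ⟨⟨V₁, hV₁, h1⟩, V₂, hV₂, h2⟩ := htrace n
    obtain ⟨O, hO, hO'⟩ := himg D fun z hz => hz
    -- the two closed sets
    let P₁ : M := sep R (fun r => r ∈ V₁)
    have mP₁ : ∀ r, r ∈ P₁ ↔ r ∈ R ∧ r ∈ V₁ := fun r => mem_sep _ _ _
    let P₂ : M := sep R (fun r => r ∈ V₂)
    have mP₂ : ∀ r, r ∈ P₂ ↔ r ∈ R ∧ r ∈ V₂ := fun r => mem_sep _ _ _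
    have hc1 : df K P₁ ∈ T := by
      have : df K P₁ = un2 O V₂ := mext fun y => by
        rw [mem_df, mP₁, mem_un2, hO']
        constructor
        · rintro ⟨hy, h3⟩
          rcases hKm y hy with h4 | ⟨φ, hφ, rfl⟩
          · exact Or.inl h4
          · right
            rw [h2 φ hφ, ← h1 φ hφ]
            exact fun h => h3 ⟨ap_mem hgf hφ, h⟩
        · rintro (⟨x, hx, rfl⟩ | h3)
          · exact ⟨ap_mem hfun hx, fun h4 => ((hRm _).1 h4.1).2 ⟨x, hx, rfl⟩⟩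
          · refine ⟨hT.1 V₂ hV₂ y h3, fun h4 => ?_⟩
            obtain ⟨φ, hφ, rfl⟩ := hgsurj y h4.1
            exact (h2 φ hφ).1 h3 ((h1 φ hφ).1 h4.2)
      rw [this]; exact top_un2 hT hO hV₂
    have hc2 : df K P₂ ∈ T := by
      have : df K P₂ = un2 O V₁ := mext fun y => by
        rw [mem_df, mP₂, mem_un2, hO']
        constructor
        · rintro ⟨hy, h3⟩
          rcases hKm y hy with h4 | ⟨φ, hφ, rfl⟩
          · exact Or.inl h4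
          · right
            rw [h1 φ hφ]
            by_contra h4
            exact h3 ⟨ap_mem hgf hφ, (h2 φ hφ).2 h4⟩
        · rintro (⟨x, hx, rfl⟩ | h3)
          · exact ⟨ap_mem hfun hx, fun h4 => ((hRm _).1 h4.1).2 ⟨x, hx, rfl⟩⟩
          · refine ⟨hT.1 V₁ hV₁ y h3, fun h4 => ?_⟩
            obtain ⟨φ, hφ, rfl⟩ := hgsurj y h4.1
            exact (h2 φ hφ).1 h4.2 ((h1 φ hφ).1 h3)
      rw [this]; exact top_un2 hT hO hV₁
    obtain ⟨V, W, hV, hW, hPV, hPW, hVW⟩ := normal hT hK hH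
      (fun z hz => ((hRm z).1 ((mP₁ z).1 hz).1).1) hc1
      (fun z hz => ((hRm z).1 ((mP₂ z).1 hz).1).1) hc2 (fun z hz => by
        obtain ⟨φ, hφ, rfl⟩ := hgsurj z ((mP₁ z).1 hz.1).1
        exact (h2 φ hφ).1 ((mP₂ _).1 hz.2).2 ((h1 φ hφ).1 ((mP₁ _).1 hz.1).2))
    -- position of the points of the remainder
    have hgV : ∀ φ : M, φ ∈ C → (ap g φ ∈ V ↔ op (nat n) oneM ∈ φ) := by
      intro φ hφ
      constructor
      · intro h3
        by_contra h4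
        exact hVW _ ⟨h3, hPW _ ((mP₂ _).2 ⟨ap_mem hgf hφ, (h2 φ hφ).2 h4⟩)⟩
      · intro h3
        exact hPV _ ((mP₁ _).2 ⟨ap_mem hgf hφ, (h1 φ hφ).2 h3⟩)
    have hgW : ∀ φ : M, φ ∈ C → (ap g φ ∈ W ↔ ¬ op (nat n) oneM ∈ φ) := by
      intro φ hφ
      constructor
      · intro h3 h4
        exact hVW _ ⟨(hgV φ hφ).2 h4, h3⟩
      · intro h3
        exact hPW _ ((mP₂ _).2 ⟨ap_mem hgf hφ, (h2 φ hφ).2 h3⟩)
    let U : M := sep D (fun x => ¬ ap h x ∈ W)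
    have mU : ∀ x, x ∈ U ↔ x ∈ D ∧ ¬ ap h x ∈ W := fun x => mem_sep _ _ _
    have hUD : Sub U D := fun x hx => ((mU x).1 hx).1
    refine ⟨U, hUD, (mem_sep _ _ _).2 ⟨(op_mem_prod _ _ _ _).2 ⟨nat_mem_om n, (mem_pw _ _).2 hUD⟩,
      nat n, U, rfl, ?_, ?_⟩⟩
    · obtain ⟨O', hO'T, hO''⟩ := himg U hUD
      refine ⟨un2 O' V, top_un2 hT hO'T hV, fun y => ?_⟩
      rw [mem_un2, hO'']
      constructor
      · rintro (h3 | h3)
        · exact Or.inl h3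
        · rcases hKm y (hT.1 V hV y h3) with ⟨x, hx, rfl⟩ | ⟨φ, hφ, rfl⟩
          · exact Or.inl ⟨x, (mU x).2 ⟨hx, fun h4 => hVW _ ⟨h3, h4⟩⟩, rfl⟩
          · exact Or.inr ⟨φ, hφ, rfl, (hgV φ hφ).1 h3⟩
      · rintro (h3 | ⟨φ, hφ, rfl, h3⟩)
        · exact Or.inl h3
        · exact Or.inr ((hgV φ hφ).2 h3)
    · refine ⟨W, hW, fun y => ?_⟩
      constructor
      · intro h3
        rcases hKm y (hT.1 W hW y h3) with ⟨x, hx, rfl⟩ | ⟨φ, hφ, rfl⟩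
        · exact Or.inl ⟨x, hx, fun h4 => ((mU x).1 h4).2 h3, rfl⟩
        · exact Or.inr ⟨φ, hφ, rfl, (hgW φ hφ).1 h3⟩
      · rintro (⟨x, hx, h3, rfl⟩ | ⟨φ, hφ, rfl, h3⟩)
        · by_contra h4
          exact h3 ((mU x).2 ⟨hx, h4⟩)
        · exact (hgW φ hφ).2 h3
  · -- almost equality
    have half : ∀ (n : ℕ) (U U' : M), Sub U' D → Clo D T h g C (nat n) U →
        Clo D T h g C (nat n) U' → {x : M | x ∈ D ∧ x ∈ U ∧ ¬ x ∈ U'}.Finite := by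
      rintro n U U' hUD' ⟨-, O₂, hO₂, hO₂'⟩ ⟨⟨O₁, hO₁, hO₁'⟩, -⟩
      obtain ⟨F, hF, hFfin, hFcov⟩ := hK
        (sep T (fun V => V = O₁ ∨ V = O₂ ∨ ∃ x : M, x ∈ D ∧ V = upair (ap h x) (ap h x)))
        (fun z hz => ((mem_sep _ _ _).1 hz).1) (fun y hy => by
          rcases hKm y hy with ⟨x, hx, rfl⟩ | ⟨φ, hφ, rfl⟩
          · exact ⟨_, (mem_sep _ _ _).2 ⟨hiso x hx, Or.inr (Or.inr ⟨x, hx, rfl⟩)⟩, by simp⟩
          · by_cases h3 : op (nat n) oneM ∈ φ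
            · exact ⟨O₁, (mem_sep _ _ _).2 ⟨hO₁, Or.inl rfl⟩, (hO₁' _).2 (Or.inr ⟨φ, hφ, rfl, h3⟩)⟩
            · exact ⟨O₂, (mem_sep _ _ _).2 ⟨hO₂, Or.inr (Or.inl rfl)⟩,
                (hO₂' _).2 (Or.inr ⟨φ, hφ, rfl, h3⟩)⟩)
      rw [isFinite_iff] at hFfin
      have hinj2 : Set.InjOn (fun x : M => upair (ap h x) (ap h x))
          {x : M | x ∈ D ∧ x ∈ U ∧ ¬ x ∈ U'} := by
        intro x hx y hy hxy
        have h3 : ap h x ∈ upair (ap h y) (ap h y) := by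
          have h4 : upair (ap h x) (ap h x) = upair (ap h y) (ap h y) := hxy
          rw [← h4]; simp
        simp only [mem_upair, or_self] at h3
        exact hhinj x y hx.1 hy.1 h3
      refine Set.Finite.of_finite_image (hFfin.subset ?_) hinj2
      rintro _ ⟨x, ⟨hx, hxU, hxU'⟩, rfl⟩
      obtain ⟨V, hV, hxV⟩ := hFcov (ap h x) (ap_mem hfun hx)
      rcases ((mem_sep _ _ _).1 (hF V hV)).2 with rfl | rfl | ⟨x', hx', rfl⟩
      · exfalso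
        rcases (hO₁' _).1 hxV with ⟨y, hy, he⟩ | ⟨φ, hφ, he, -⟩
        · rw [hhinj x y hx (hUD' y hy) he] at hxU'; exact hxU' hy
        · exact hDR x φ hx hφ he
      · exfalso
        rcases (hO₂' _).1 hxV with ⟨y, hyD, hy, he⟩ | ⟨φ, hφ, he, -⟩
        · rw [hhinj x y hx hyD he] at hxU; exact hy hxU
        · exact hDR x φ hx hφ he
      · simp only [mem_upair, or_self] at hxV
        show upair (ap h x) (ap h x) ∈ F
        rw [hxV]; exact hV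
    intro n U U' hU hU'
    obtain ⟨hU1, n₁, U₁, he₁, hcl⟩ := (mem_sep _ _ _).1 hU
    obtain ⟨hU1', n₂, U₂, he₂, hcl'⟩ := (mem_sep _ _ _).1 hU'
    rw [op_inj] at he₁ he₂
    obtain ⟨rfl, rfl⟩ := he₁
    obtain ⟨rfl, rfl⟩ := he₂
    rw [op_mem_prod, mem_pw] at hU1 hU1'
    refine ((half n U U' hU1'.2 hcl hcl').union (half n U' U hU1.2 hcl' hcl)).subset ?_
    rintro x ⟨hx, hne⟩
    by_cases hxU : x ∈ U
    · exact Or.inl ⟨hx, hxU, fun h => hne (iff_of_true hxU h)⟩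
    · refine Or.inr ⟨hx, ?_, hxU⟩
      by_contra h
      exact hne (iff_of_false hxU h)
  · -- different coordinates
    intro n m U U' hnm hU hU' hfin
    obtain ⟨hU1, n₁, U₁, he₁, ⟨O₁, hO₁, hO₁'⟩, -⟩ := (mem_sep _ _ _).1 hU
    obtain ⟨hU1', n₂, U₂, he₂, -, O₂, hO₂, hO₂'⟩ := (mem_sep _ _ _).1 hU'
    rw [op_inj] at he₁ he₂
    obtain ⟨rfl, rfl⟩ := he₁
    obtain ⟨rfl, rfl⟩ := he₂
    rw [op_mem_prod, mem_pw] at hU1 hU1'
    -- a function with value one at `n` and zero at `m`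
    let φ : M := sep (prod om t) (fun z => ∃ k v : M, z = op k v ∧
      ((k = nat n ∧ v = oneM) ∨ (¬ k = nat n ∧ v = emp))) (h := by exact inferInstance)
    have mφ : ∀ k v : M, op k v ∈ φ ↔ (k ∈ (om : M) ∧ v ∈ t) ∧
        ((k = nat n ∧ v = oneM) ∨ (¬ k = nat n ∧ v = emp)) := by
      intro k v
      rw [mem_sep, op_mem_prod]
      refine and_congr_right fun _ => ⟨?_, fun h => ⟨k, v, rfl, h⟩⟩
      rintro ⟨k', v', he, h⟩
      rw [op_inj] at he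
      rw [he.1, he.2]; exact h
    have hφ : φ ∈ C := by
      rw [hCf]
      constructor
      · intro z hz
        obtain ⟨a, ha, b, hb, rfl⟩ := (mem_prod _ _ _).1 ((mem_sep _ _ _).1 hz).1
        exact ⟨a, ha, b, hb, rfl⟩
      · intro k hk
        by_cases hkn : k = nat n
        · refine ⟨oneM, (mφ _ _).2 ⟨⟨hk, (ht' _).2 (Or.inr rfl)⟩, Or.inl ⟨hkn, rfl⟩⟩, ?_⟩
          intro c hc
          rcases ((mφ _ _).1 hc).2 with h1 | h1
          · exact h1.2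
          · exact absurd hkn h1.1
        · refine ⟨emp, (mφ _ _).2 ⟨⟨hk, (ht' _).2 (Or.inl rfl)⟩, Or.inr ⟨hkn, rfl⟩⟩, ?_⟩
          intro c hc
          rcases ((mφ _ _).1 hc).2 with h1 | h1
          · exact absurd h1.1 hkn
          · exact h1.2
    have hφn : op (nat n) oneM ∈ φ :=
      (mφ _ _).2 ⟨⟨nat_mem_om n, (ht' _).2 (Or.inr rfl)⟩, Or.inl ⟨rfl, rfl⟩⟩
    have hφm : ¬ op (nat m) oneM ∈ φ := by
      intro h1
      rcases ((mφ _ _).1 h1).2 with h2 | h2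
      · exact hnm (nat_inj.1 h2.1).symm
      · exact hone h2.2
    have hgφ : ap g φ ∈ K := ((hRm _).1 (ap_mem hgf hφ)).1
    obtain ⟨W, hW, h1, h2⟩ := avoid hT hH hgφ (hfin.image fun x => ap h x) (by
      rintro _ ⟨x, hx, rfl⟩
      exact ⟨ap_mem hfun hx.1, hDR x φ hx.1 hφ⟩)
    obtain ⟨x, hx, hxV⟩ := hdense' (in2 (in2 O₁ O₂) W) (top_in2 hT (top_in2 hT hO₁ hO₂) hW)
      ⟨ap g φ, (mem_in2 _ _ _).2 ⟨(mem_in2 _ _ _).2 ⟨(hO₁' _).2 (Or.inr ⟨φ, hφ, rfl, hφn⟩),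
        (hO₂' _).2 (Or.inr ⟨φ, hφ, rfl, hφm⟩)⟩, h1⟩⟩
    rw [mem_in2, mem_in2] at hxV
    obtain ⟨⟨hx1, hx2⟩, hx3⟩ := hxV
    have hxU : x ∈ U := by
      rcases (hO₁' _).1 hx1 with ⟨y, hy, he⟩ | ⟨ψ, hψ, he, -⟩
      · rw [hhinj x y hx (hU1.2 y hy) he]; exact hy
      · exact absurd he (hDR x ψ hx hψ)
    have hxU' : ¬ x ∈ U' := by
      rcases (hO₂' _).1 hx2 with ⟨y, hyD, hy, he⟩ | ⟨ψ, hψ, he, -⟩
      · rw [hhinj x y hx hyD he]; exact hy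
      · exact absurd he (hDR x ψ hx hψ)
    exact h2 _ ⟨x, ⟨hx, fun h => hxU' (h.1 hxU)⟩, rfl⟩ hx3

end

end Pool.Agent.Helper9.INSHC
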