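import Pool.Agent.Helper9.INSHC.Bool
import Mathlib.Order.CountableDenseLinearOrder

/-!
In ZF: if an infinite set `D` can be mapped onto a dense linear order without endpoints, then the
discrete space on `D` has a Hausdorff compactification that is not scattered.
-/

namespace Pool.Agent.Helper9.INSHC

open Pool.Agent.Helper9.CRT Pool.Agent.Helper73.Sym

set_option synthInstance.maxSize 2000

section

variable {M : Type*} [Membership M M]

/-- `R` is a dense linear order without endpoints on the nonempty set `J` -/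
structure DLO [IsZF M] (J R : M) : Prop where
  irr : ∀ x : M, x ∈ J → ¬ op x x ∈ R
  trans : ∀ x y z : M, x ∈ J → y ∈ J → z ∈ J → op x y ∈ R → op y z ∈ R → op x z ∈ R
  tot : ∀ x y : M, x ∈ J → y ∈ J → x = y ∨ op x y ∈ R ∨ op y x ∈ R
  dense : ∀ x y : M, x ∈ J → y ∈ J → op x y ∈ R → ∃ z : M, z ∈ J ∧ op x z ∈ R ∧ op z y ∈ R
  noMin : ∀ x : M, x ∈ J → ∃ y : M, y ∈ J ∧ op y x ∈ R
  noMax : ∀ x : M, x ∈ J → ∃ y : M, y ∈ J ∧ op x y ∈ R
  ne : ∃ x : M, x ∈ J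

end

section

variable {M : Type*} [Membership M M] [StdZF M]

/-- the set of initial segments of `(J, R)` -/
noncomputable def cuts (J R : M) : M :=
  sep (pw J) (fun C => ∀ x y : M, x ∈ J → y ∈ C → op x y ∈ R → x ∈ C)

theorem mem_cuts {J R C : M} : C ∈ cuts J R ↔
    Sub C J ∧ ∀ x y : M, x ∈ J → y ∈ C → op x y ∈ R → x ∈ C := by
  rw [cuts, mem_sep, mem_pw]

variable {J R : M}

/-- separation property -/
theorem DLO.exists_mid (h : DLO J R) {C : M} (hC : C ∈ cuts J R) {s : Set M} (hs : s.Finite)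
    (hsJ : ∀ x ∈ s, x ∈ J) :
    ∃ m : M, m ∈ J ∧ m ∉ s ∧ ∀ g ∈ s, op g m ∈ R ↔ g ∈ C := by
  classical
  rw [mem_cuts] at hC
  let JT := {x : M // x ∈ J}
  let r : JT → JT → Prop := fun x y => op x.1 y.1 ∈ R
  have hr : IsStrictTotalOrder JT r :=
    { trichotomous := fun x y hxy hyx => by
        rcases h.tot x.1 y.1 x.2 y.2 with h1 | h1 | h1
        · exact Subtype.ext h1
        · exact absurd h1 hxy
        · exact absurd h1 hyx
      irrefl := fun x => h.irr x.1 x.2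
      trans := fun x y z h1 h2 => h.trans _ _ _ x.2 y.2 z.2 h1 h2 }
  let _ : LinearOrder JT := linearOrderOfSTO r
  have hlt : ∀ x y : JT, x < y ↔ op x.1 y.1 ∈ R := fun x y => Iff.rfl
  have : DenselyOrdered JT := ⟨fun x y hxy => by
    obtain ⟨z, hz, h1, h2⟩ := h.dense _ _ x.2 y.2 hxy
    exact ⟨⟨z, hz⟩, h1, h2⟩⟩
  have : NoMinOrder JT := ⟨fun x => by
    obtain ⟨z, hz, h1⟩ := h.noMin _ x.2
    exact ⟨⟨z, hz⟩, h1⟩⟩
  have : NoMaxOrder JT := ⟨fun x => by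
    obtain ⟨z, hz, h1⟩ := h.noMax _ x.2
    exact ⟨⟨z, hz⟩, h1⟩⟩
  have : Nonempty JT := by
    obtain ⟨x, hx⟩ := h.ne
    exact ⟨⟨x, hx⟩⟩
  have hs' : {x : JT | x.1 ∈ s}.Finite := by
    refine Set.Finite.preimage Subtype.val_injective.injOn hs
  obtain ⟨m, h1, h2⟩ := Order.exists_between_finsets
    (hs'.toFinset.filter fun x => x.1 ∈ C) (hs'.toFinset.filter fun x => ¬ x.1 ∈ C) (by
      intro x hx y hy
      rw [Finset.mem_filter] at hx hy
      rcases lt_trichotomy x y with h3 | h3 | h3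
      · exact h3
      · exact absurd (h3 ▸ hx.2) hy.2
      · exact absurd (hC.2 _ _ y.2 hx.2 h3) hy.2)
  refine ⟨m.1, m.2, ?_, ?_⟩
  · intro hm
    by_cases hmC : m.1 ∈ C
    · exact lt_irrefl m (h1 m (by simp [hm, hmC]))
    · exact lt_irrefl m (h2 m (by simp [hm, hmC]))
  · intro g hg
    by_cases hgC : g ∈ C
    · refine iff_of_true ?_ hgC
      exact h1 ⟨g, hsJ g hg⟩ (by simp [hg, hgC])
    · refine iff_of_false ?_ hgC
      intro h3
      have h4 : m < ⟨g, hsJ g hg⟩ := h2 ⟨g, hsJ g hg⟩ (by simp [hg, hgC])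
      exact lt_irrefl m (h4.trans h3)

/-- initial segments are comparable -/
theorem DLO.cuts_total (h : DLO J R) {C C' : M} (hC : C ∈ cuts J R) (hC' : C' ∈ cuts J R) :
    Sub C C' ∨ Sub C' C := by
  rw [mem_cuts] at hC hC'
  by_contra hne
  rw [not_or] at hne
  obtain ⟨h1, h2⟩ := hne
  unfold Helper73.Sym.Sub at h1 h2
  push Not at h1 h2
  obtain ⟨x, hx, hx'⟩ := h1
  obtain ⟨y, hy, hy'⟩ := h2
  rcases h.tot x y (hC.1 x hx) (hC'.1 y hy) with h3 | h3 | h3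
  · rw [h3] at hx; exact hy' hx
  · exact hx' (hC'.2 x y (hC.1 x hx) hy h3)
  · exact hy' (hC.2 y x (hC'.1 y hy) hx h3)

variable {D f : M}

/-- the points: pairs `(C, ∅)` for initial segments `C` and `(C_d, {d})` for `d ∈ D` with
`C_d = {x : x ≤ f d}` -/
noncomputable def KK (J R D f : M) : M :=
  sep (prod (cuts J R) (pw D)) (fun k => ∃ C t : M, k = op C t ∧ (t = emp ∨
    ∃ d : M, d ∈ D ∧ t = upair d d ∧ ∀ g : M, g ∈ C ↔ g ∈ J ∧ (g = ap f d ∨ op g (ap f d) ∈ R)))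

theorem mem_KK {C t : M} : op C t ∈ KK J R D f ↔ C ∈ cuts J R ∧ (t = emp ∨
    ∃ d : M, d ∈ D ∧ t = upair d d ∧
      ∀ g : M, g ∈ C ↔ g ∈ J ∧ (g = ap f d ∨ op g (ap f d) ∈ R)) := by
  rw [KK, mem_sep, op_mem_prod]
  constructor
  · rintro ⟨⟨h1, h2⟩, C', t', h3, h4⟩
    rw [op_inj] at h3
    obtain ⟨rfl, rfl⟩ := h3
    exact ⟨h1, h4⟩
  · rintro ⟨h1, h2⟩
    refine ⟨⟨h1, ?_⟩, C, t, rfl, h2⟩
    rw [mem_pw]
    rcases h2 with rfl | ⟨d, hd, rfl, -⟩
    · exact fun z hz => absurd hz (mem_emp z)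
    · intro z hz
      simp only [mem_upair, or_self] at hz
      rw [hz]; exact hd

theorem exists_of_mem_KK {k : M} (hk : k ∈ KK J R D f) : ∃ C t : M, k = op C t := by
  rw [KK, mem_sep] at hk
  obtain ⟨-, C, t, h, -⟩ := hk
  exact ⟨C, t, h⟩

/-- `U` is a neighbourhood of the point `(C, ∅)` -/
def Nb (J K U C : M) : Prop := ∃ G E : M, IsFin G ∧ Sub G J ∧ IsFin E ∧ ¬ (emp : M) ∈ E ∧
  ∀ C' t : M, op C' t ∈ K → (∀ g : M, g ∈ G → (g ∈ C' ↔ g ∈ C)) → ¬ t ∈ E → op C' t ∈ U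

instance Dfn.nb (J K : M) {t u : (ℕ → M) → M} [ht : DT t] [hu : DT u] :
    Dfn (fun v => Nb J K (t v) (u v)) :=
  Dfn.rel2 (R := Nb J K) (inferInstanceAs (Dfn (fun v : ℕ → M =>
    ∃ G E : M, IsFin G ∧ Sub G J ∧ IsFin E ∧ ¬ (emp : M) ∈ E ∧
      ∀ C' t : M, op C' t ∈ K → (∀ g : M, g ∈ G → (g ∈ C' ↔ g ∈ v 1)) → ¬ t ∈ E →
        op C' t ∈ v 0))) ht hu

/-- the topology -/
noncomputable def TT (J R D f : M) : M :=
  sep (pw (KK J R D f)) (fun U => ∀ C : M, op C emp ∈ U → Nb J (KK J R D f) U C)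
    (h := by exact inferInstance)

theorem mem_TT {U : M} : U ∈ TT J R D f ↔ Sub U (KK J R D f) ∧
    ∀ C : M, op C emp ∈ U → Nb J (KK J R D f) U C := by
  rw [TT, mem_sep, mem_pw]

theorem isFin_emp : IsFin (emp : M) := by
  rw [isFin_iff]
  have : {z : M | z ∈ (emp : M)} = ∅ := by ext z; simp
  rw [this]; exact Set.finite_empty

theorem isFin_sing (a : M) : IsFin (upair a a) := by
  rw [isFin_iff]
  refine (Set.finite_singleton a).subset fun z hz => ?_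
  simpa using hz

theorem isTopology_TT : IsTopology (KK J R D f) (TT J R D f) := by
  refine ⟨fun U hU => (mem_TT.1 hU).1, mem_TT.2 ⟨fun z hz => hz, fun C hC => ?_⟩, ?_, ?_⟩
  · exact ⟨emp, emp, isFin_emp, fun z hz => absurd hz (mem_emp z), isFin_emp, mem_emp _,
      fun C' t h _ _ => h⟩
  · intro U V hU hV
    rw [mem_TT] at hU hV
    refine ⟨in2 U V, mem_TT.2 ⟨fun z hz => hU.1 z ((mem_in2 _ _ _).1 hz).1, fun C hC => ?_⟩,
      fun z => mem_in2 _ _ _⟩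
    rw [mem_in2] at hC
    obtain ⟨G, E, h1, h2, h3, h4, h5⟩ := hU.2 C hC.1
    obtain ⟨G', E', h1', h2', h3', h4', h5'⟩ := hV.2 C hC.2
    refine ⟨un2 G G', un2 E E', isFin_un2 h1 h1', fun z hz => ?_, isFin_un2 h3 h3', ?_, ?_⟩
    · rcases (mem_un2 _ _ _).1 hz with h | h
      · exact h2 z h
      · exact h2' z h
    · rw [mem_un2]; tauto
    · intro C' t hk hg ht
      rw [mem_un2, not_or] at ht
      rw [mem_in2]
      exact ⟨h5 C' t hk (fun g hg' => hg g ((mem_un2 _ _ _).2 (Or.inl hg'))) ht.1,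
        h5' C' t hk (fun g hg' => hg g ((mem_un2 _ _ _).2 (Or.inr hg'))) ht.2⟩
  · intro S hS
    refine ⟨sUn S, mem_TT.2 ⟨fun z hz => ?_, fun C hC => ?_⟩, fun z => mem_sUn _ _⟩
    · obtain ⟨U, hU, hz⟩ := (mem_sUn _ _).1 hz
      exact (mem_TT.1 (hS U hU)).1 z hz
    · obtain ⟨U, hU, hz⟩ := (mem_sUn _ _).1 hC
      obtain ⟨G, E, h1, h2, h3, h4, h5⟩ := (mem_TT.1 (hS U hU)).2 C hz
      exact ⟨G, E, h1, h2, h3, h4, fun C' t hk hg ht =>
        (mem_sUn _ _).2 ⟨U, hU, h5 C' t hk hg ht⟩⟩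

/-- a set of points containing no point `(C, ∅)` is open -/
theorem open_of_tag {U : M} (h1 : Sub U (KK J R D f)) (h2 : ∀ C : M, ¬ op C emp ∈ U) :
    U ∈ TT J R D f := mem_TT.2 ⟨h1, fun C hC => absurd hC (h2 C)⟩

theorem isHausdorff_TT : IsHausdorff (KK J R D f) (TT J R D f) := by
  intro x y hx hy hxy
  obtain ⟨C, t, rfl⟩ := exists_of_mem_KK hx
  obtain ⟨C', t', rfl⟩ := exists_of_mem_KK hy
  -- the sets given by membership of `g`
  have hop : ∀ g : M, g ∈ J →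
      sep (KK J R D f) (fun k => ∃ C t : M, k = op C t ∧ g ∈ C) ∈ TT J R D f ∧
      sep (KK J R D f) (fun k => ∃ C t : M, k = op C t ∧ ¬ g ∈ C) ∈ TT J R D f := by
    intro g hg
    have hG : Sub (upair g g) J := fun z hz => by
      simp only [mem_upair, or_self] at hz
      rw [hz]; exact hg
    constructor
    · refine mem_TT.2 ⟨fun z hz => ((mem_sep _ _ _).1 hz).1, fun C hC => ?_⟩
      rw [mem_sep] at hC
      obtain ⟨-, C₀, t₀, h1, h2⟩ := hC
      rw [op_inj] at h1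
      refine ⟨upair g g, emp, isFin_sing g, hG, isFin_emp, mem_emp _, fun C' t hk hg' _ => ?_⟩
      rw [mem_sep]
      refine ⟨hk, C', t, rfl, ?_⟩
      rw [hg' g (by simp), h1.1]
      exact h2
    · refine mem_TT.2 ⟨fun z hz => ((mem_sep _ _ _).1 hz).1, fun C hC => ?_⟩
      rw [mem_sep] at hC
      obtain ⟨-, C₀, t₀, h1, h2⟩ := hC
      rw [op_inj] at h1
      refine ⟨upair g g, emp, isFin_sing g, hG, isFin_emp, mem_emp _, fun C' t hk hg' _ => ?_⟩
      rw [mem_sep]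
      refine ⟨hk, C', t, rfl, ?_⟩
      rw [hg' g (by simp), h1.1]
      exact h2
  have hCJ : Sub C J := (mem_cuts.1 (mem_KK.1 hx).1).1
  have hCJ' : Sub C' J := (mem_cuts.1 (mem_KK.1 hy).1).1
  by_cases hCC : C = C'
  · subst hCC
    have htt : t ≠ t' := fun h => hxy (by rw [h])
    -- one of the tags is nonempty
    have key : ∀ t t' : M, op C t ∈ KK J R D f → op C t' ∈ KK J R D f → t ≠ t' → t ≠ emp →
        ∃ U V : M, U ∈ TT J R D f ∧ V ∈ TT J R D f ∧ op C t ∈ U ∧ op C t' ∈ V ∧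
          ∀ z : M, ¬ (z ∈ U ∧ z ∈ V) := by
      intro t t' ht ht' hne hne'
      refine ⟨upair (op C t) (op C t), df (KK J R D f) (upair (op C t) (op C t)), ?_, ?_,
        by simp, ?_, fun z hz => ?_⟩
      · refine open_of_tag (fun z hz => ?_) fun C' hC' => ?_
        · simp only [mem_upair, or_self] at hz
          rw [hz]; exact ht
        · simp only [mem_upair, or_self, op_inj] at hC'
          exact hne' hC'.2.symm
      · refine mem_TT.2 ⟨fun z hz => ((mem_df _ _ _).1 hz).1, fun C' hC' => ?_⟩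
        refine ⟨emp, upair t t, isFin_emp, fun z hz => absurd hz (mem_emp z), isFin_sing t, ?_,
          fun C'' t'' hk _ ht'' => ?_⟩
        · simp only [mem_upair, or_self]
          exact fun h => hne' h.symm
        · rw [mem_df]
          refine ⟨hk, ?_⟩
          simp only [mem_upair, or_self, op_inj] at ht'' ⊢
          exact fun h => ht'' h.2
      · rw [mem_df]
        refine ⟨ht', ?_⟩
        simp only [mem_upair, or_self, op_inj]
        exact fun h => hne h.2.symm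
      · rw [mem_df] at hz
        exact hz.2.2 hz.1
    by_cases hte : t = emp
    · obtain ⟨U, V, h1, h2, h3, h4, h5⟩ := key t' t hy hx htt.symm (fun h => htt (hte.trans h.symm))
      exact ⟨V, U, h2, h1, h4, h3, fun z hz => h5 z ⟨hz.2, hz.1⟩⟩
    · exact key t t' hx hy htt hte
  · -- an element of the symmetric difference
    have hex : ∃ g : M, (g ∈ C ∧ ¬ g ∈ C') ∨ (g ∈ C' ∧ ¬ g ∈ C) := by
      by_contra hno
      apply hCC
      apply mext
      intro z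
      by_contra hz
      apply hno
      refine ⟨z, ?_⟩
      tauto
    obtain ⟨g, ⟨h1, h2⟩ | ⟨h1, h2⟩⟩ := hex
    · refine ⟨_, _, (hop g (hCJ g h1)).1, (hop g (hCJ g h1)).2, ?_, ?_, fun z hz => ?_⟩
      · rw [mem_sep]; exact ⟨hx, C, t, rfl, h1⟩
      · rw [mem_sep]; exact ⟨hy, C', t', rfl, h2⟩
      · rw [mem_sep, mem_sep] at hz
        obtain ⟨⟨-, C₁, t₁, rfl, h3⟩, -, C₂, t₂, h4, h5⟩ := hz
        rw [op_inj] at h4
        rw [h4.1] at h3
        exact h5 h3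
    · refine ⟨_, _, (hop g (hCJ' g h1)).2, (hop g (hCJ' g h1)).1, ?_, ?_, fun z hz => ?_⟩
      · rw [mem_sep]; exact ⟨hx, C, t, rfl, h2⟩
      · rw [mem_sep]; exact ⟨hy, C', t', rfl, h1⟩
      · rw [mem_sep, mem_sep] at hz
        obtain ⟨⟨-, C₁, t₁, rfl, h3⟩, -, C₂, t₂, h4, h5⟩ := hz
        rw [op_inj] at h4
        rw [← h4.1] at h5
        exact h3 h5

/-! ### compactness -/

/-- the points with tag in `E` are finitely many -/
theorem finite_tags {E : M} (hE : IsFin E) (hemp : ¬ (emp : M) ∈ E) :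
    {k : M | k ∈ KK J R D f ∧ ∃ C t : M, k = op C t ∧ t ∈ E}.Finite := by
  classical
  rw [isFin_iff] at hE
  let c : M → M := fun t => if h : ∃ C : M, op C t ∈ KK J R D f then h.choose else emp
  refine (hE.image (fun t => op (c t) t)).subset ?_
  rintro k ⟨hk, C, t, rfl, ht⟩
  refine ⟨t, ht, ?_⟩
  have hex : ∃ C : M, op C t ∈ KK J R D f := ⟨C, hk⟩
  have h1 : c t = hex.choose := by simp only [c, dif_pos hex]
  have h2 := hex.choose_spec
  rw [← h1] at h2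
  have hte : t ≠ emp := fun h => hemp (h ▸ ht)
  have h3 : C = c t := by
    rcases (mem_KK.1 hk).2 with h | ⟨d, hd, h4, h5⟩
    · exact absurd h hte
    rcases (mem_KK.1 h2).2 with h | ⟨d', hd', h4', h5'⟩
    · exact absurd h hte
    have h6 : d = d' := by
      have h7 : d ∈ upair d' d' := by rw [← h4', h4]; simp
      simpa using h7
    subst h6
    exact mext fun g => by rw [h5, h5']
  show op (c t) t = op C t
  rw [h3]

/-- the initial segments `C` such that the points below `C` are almost covered by finitely many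
members of `S` -/
def Cov (K S C : M) : Prop := ∃ F E : M, IsFin F ∧ Sub F S ∧ IsFin E ∧ ¬ (emp : M) ∈ E ∧
  ∀ C' t : M, op C' t ∈ K → Sub C' C → ¬ t ∈ E → ∃ U : M, U ∈ F ∧ op C' t ∈ U

instance Dfn.cov (K S : M) {t : (ℕ → M) → M} [ht : DT t] : Dfn (fun v => Cov K S (t v)) :=
  Dfn.rel1 (R := Cov K S) (inferInstanceAs (Dfn (fun v : ℕ → M =>
    ∃ F E : M, IsFin F ∧ Sub F S ∧ IsFin E ∧ ¬ (emp : M) ∈ E ∧
      ∀ C' t : M, op C' t ∈ K → Sub C' (v 0) → ¬ t ∈ E → ∃ U : M, U ∈ F ∧ op C' t ∈ U))) ht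

theorem exists_union {s : Set M} (hs : s.Finite) (P Q : M → M → Prop)
    (h : ∀ g ∈ s, ∃ F : M, IsFin F ∧ P g F)
    (hmono : ∀ g ∈ s, ∀ F F' : M, Sub F F' → P g F → Q g F') :
    ∃ F : M, IsFin F ∧ ∀ g ∈ s, Q g F := by
  classical
  choose! F hF using h
  have h1 : (⋃ g ∈ s, {z : M | z ∈ F g}).Finite := hs.biUnion fun g hg => by
    have := (hF g hg).1
    rwa [isFin_iff] at this
  obtain ⟨F', hF', hfin⟩ := exists_finite_set h1
  refine ⟨F', hfin, fun g hg => hmono g hg (F g) F' (fun z hz => ?_) (hF g hg).2⟩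
  rw [hF']
  exact Set.mem_biUnion hg hz

theorem cov_step {S : M} (hS : Sub S (TT J R D f))
    (hcov : ∀ x, x ∈ KK J R D f → ∃ U : M, U ∈ S ∧ x ∈ U) {C : M} (hC : C ∈ cuts J R)
    (h : ∀ g : M, g ∈ C → ∃ C₁ : M, Cov (KK J R D f) S C₁ ∧
      ∀ C' : M, C' ∈ cuts J R → ¬ g ∈ C' → Sub C' C₁) :
    ∃ G : M, IsFin G ∧ Sub G J ∧ ∀ C₂ : M, (∀ g : M, g ∈ G → g ∈ C₂ → g ∈ C) →
      Cov (KK J R D f) S C₂ := by
  classical
  obtain ⟨U₀, hU₀, hCU⟩ := hcov (op C emp) (mem_KK.2 ⟨hC, Or.inl rfl⟩)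
  obtain ⟨G, E₀, hG, hGJ, hE₀, hempE, hnb⟩ := (mem_TT.1 (hS U₀ hU₀)).2 C hCU
  refine ⟨G, hG, hGJ, fun C₂ hC₂ => ?_⟩
  -- choose data for the elements of `G ∩ C`
  choose! C₁ hC₁ using h
  choose! F E hFE using fun g (hg : g ∈ C) => (hC₁ g hg).1
  have hGf := hG
  rw [isFin_iff] at hGf
  have hs : {g : M | g ∈ G ∧ g ∈ C}.Finite := hGf.subset fun g hg => hg.1
  have hFfin : (⋃ g ∈ {g : M | g ∈ G ∧ g ∈ C}, {z : M | z ∈ F g}).Finite :=
    hs.biUnion fun g hg => by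
      have := (hFE g hg.2).1
      rwa [isFin_iff] at this
  have hEfin : (⋃ g ∈ {g : M | g ∈ G ∧ g ∈ C}, {z : M | z ∈ E g}).Finite :=
    hs.biUnion fun g hg => by
      have := (hFE g hg.2).2.2.1
      rwa [isFin_iff] at this
  obtain ⟨F', hF', hF'fin⟩ := exists_finite_set hFfin
  obtain ⟨E', hE', hE'fin⟩ := exists_finite_set hEfin
  refine ⟨un2 F' (upair U₀ U₀), un2 E' E₀, isFin_un2 hF'fin (isFin_sing _), fun z hz => ?_,
    isFin_un2 hE'fin hE₀, ?_, fun C' t hk hsub ht => ?_⟩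
  · rw [mem_un2, mem_upair, or_self] at hz
    rcases hz with hz | rfl
    · rw [hF'] at hz
      obtain ⟨g, hg, hz⟩ := Set.mem_iUnion₂.1 hz
      exact (hFE g hg.2).2.1 z hz
    · exact hU₀
  · rw [mem_un2, not_or]
    refine ⟨fun hz => ?_, hempE⟩
    rw [hE'] at hz
    obtain ⟨g, hg, hz⟩ := Set.mem_iUnion₂.1 hz
    exact (hFE g hg.2).2.2.2.1 hz
  · rw [mem_un2, not_or] at ht
    have hC' : C' ∈ cuts J R := (mem_KK.1 hk).1
    by_cases hex : ∃ g : M, g ∈ G ∧ g ∈ C ∧ ¬ g ∈ C'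
    · obtain ⟨g, hg, hgC, hgC'⟩ := hex
      have hmem : g ∈ {g : M | g ∈ G ∧ g ∈ C} := ⟨hg, hgC⟩
      obtain ⟨U, hU, hU'⟩ := (hFE g hgC).2.2.2.2 C' t hk ((hC₁ g hgC).2 C' hC' hgC') (fun hz =>
        ht.1 ((hE' t).2 (Set.mem_iUnion₂.2 ⟨g, hmem, hz⟩)))
      exact ⟨U, (mem_un2 _ _ _).2 (Or.inl ((hF' U).2 (Set.mem_iUnion₂.2 ⟨g, hmem, hU⟩))), hU'⟩
    · push Not at hex
      refine ⟨U₀, by simp, hnb C' t hk (fun g hg => ⟨fun h1 => hC₂ g hg (hsub g h1),
        fun h1 => hex g hg h1⟩) ht.2⟩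

theorem isCompact_TT (hJ : DLO J R) : IsCompact (KK J R D f) (TT J R D f) := by
  classical
  intro S hS hcov
  set K := KK J R D f with hK
  set A : M := sep (cuts J R) (fun C => Cov K S C) (h := by exact inferInstance) with hA
  have mA : ∀ C, C ∈ A ↔ C ∈ cuts J R ∧ Cov K S C := fun C => by rw [hA, mem_sep]
  -- the supremum
  have hsup : sUn A ∈ cuts J R := by
    rw [mem_cuts]
    constructor
    · intro z hz
      obtain ⟨C, hC, hz⟩ := (mem_sUn _ _).1 hz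
      exact (mem_cuts.1 ((mA C).1 hC).1).1 z hz
    · intro x y hx hy hxy
      obtain ⟨C, hC, hy⟩ := (mem_sUn _ _).1 hy
      exact (mem_sUn _ _).2 ⟨C, hC, (mem_cuts.1 ((mA C).1 hC).1).2 x y hx hy hxy⟩
  have hhyp : ∀ g : M, g ∈ sUn A → ∃ C₁ : M, Cov K S C₁ ∧
      ∀ C' : M, C' ∈ cuts J R → ¬ g ∈ C' → Sub C' C₁ := by
    intro g hg
    obtain ⟨C, hC, hg⟩ := (mem_sUn _ _).1 hg
    refine ⟨C, ((mA C).1 hC).2, fun C' hC' hgC' => ?_⟩
    rcases hJ.cuts_total hC' ((mA C).1 hC).1 with h | h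
    · exact h
    · exact absurd (h g hg) hgC'
  obtain ⟨G, hG, hGJ, hG2⟩ := cov_step hS hcov hsup hhyp
  have hJc : J ∈ cuts J R := mem_cuts.2 ⟨fun z hz => hz, fun x y hx _ _ => hx⟩
  -- the supremum is `J`
  have hall : ∀ g : M, g ∈ G → g ∈ sUn A := by
    by_contra hno
    push Not at hno
    -- the least element of `G` outside the supremum
    let JT := {x : M // x ∈ J}
    let r : JT → JT → Prop := fun x y => op x.1 y.1 ∈ R
    have hr : IsStrictTotalOrder JT r :=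
      { trichotomous := fun x y hxy hyx => by
          rcases hJ.tot x.1 y.1 x.2 y.2 with h1 | h1 | h1
          · exact Subtype.ext h1
          · exact absurd h1 hxy
          · exact absurd h1 hyx
        irrefl := fun x => hJ.irr x.1 x.2
        trans := fun x y z h1 h2 => hJ.trans _ _ _ x.2 y.2 z.2 h1 h2 }
    let _ : LinearOrder JT := linearOrderOfSTO r
    have hfin : {x : JT | x.1 ∈ G ∧ ¬ x.1 ∈ sUn A}.Finite := by
      have h1 := hG
      rw [isFin_iff] at h1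
      exact (Set.Finite.preimage Subtype.val_injective.injOn h1).subset fun x hx => hx.1
    obtain ⟨g, hg, hg'⟩ := hno
    obtain ⟨b, hb, hbmin⟩ := hfin.exists_minimal ⟨⟨g, hGJ g hg⟩, hg, hg'⟩
    have hbmin' : ∀ x : M, x ∈ G → op x b.1 ∈ R → x ∈ sUn A := by
      intro x hx hxb
      by_contra hx'
      have h2 : (⟨x, hGJ x hx⟩ : JT) < b := hxb
      exact absurd h2 (not_lt_of_ge (hbmin ⟨hx, hx'⟩ h2.le))
    obtain ⟨b, hbJ⟩ := b
    simp only [Set.mem_ofPred_eq] at hb hbmin'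
    -- the initial segment below `b`
    let B₁ : M := sep J (fun x => op x b ∈ R)
    have mB₁ : ∀ x, x ∈ B₁ ↔ x ∈ J ∧ op x b ∈ R := fun x => mem_sep _ _ _
    let B₂ : M := sep J (fun x => x = b ∨ op x b ∈ R)
    have mB₂ : ∀ x, x ∈ B₂ ↔ x ∈ J ∧ (x = b ∨ op x b ∈ R) := fun x => mem_sep _ _ _
    have hB₂c : B₂ ∈ cuts J R := by
      refine mem_cuts.2 ⟨fun z hz => ((mB₂ z).1 hz).1, fun x y hx hy hxy => (mB₂ x).2 ⟨hx, ?_⟩⟩
      rcases ((mB₂ y).1 hy).2 with rfl | h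
      · exact Or.inr hxy
      · exact Or.inr (hJ.trans _ _ _ hx ((mB₂ y).1 hy).1 hbJ hxy h)
    have hcB₁ : Cov K S B₁ := hG2 B₁ fun g hg hgB => hbmin' g hg ((mB₁ g).1 hgB).2
    obtain ⟨G', -, -, hG'⟩ := cov_step hS hcov hB₂c (fun g hg => by
      refine ⟨B₁, hcB₁, fun C' hC' hgC' x hx => (mB₁ x).2 ⟨(mem_cuts.1 hC').1 x hx, ?_⟩⟩
      have hxJ := (mem_cuts.1 hC').1 x hx
      have hgJ := ((mB₂ g).1 hg).1
      have hxg : op x g ∈ R := by
        rcases hJ.tot x g hxJ hgJ with h1 | h1 | h1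
        · rw [h1] at hx; exact absurd hx hgC'
        · exact h1
        · exact absurd ((mem_cuts.1 hC').2 g x hgJ hx h1) hgC'
      rcases ((mB₂ g).1 hg).2 with rfl | h
      · exact hxg
      · exact hJ.trans _ _ _ hxJ hgJ hbJ hxg h)
    have hcB₂ : Cov K S B₂ := hG' B₂ fun g _ h => h
    exact hb.2 ((mem_sUn _ _).2 ⟨B₂, (mA _).2 ⟨hB₂c, hcB₂⟩, (mB₂ b).2 ⟨hbJ, Or.inl rfl⟩⟩)
  have hcJ : Cov K S J := hG2 J fun g hg _ => hall g hg
  obtain ⟨F, E, hF, hFS, hE, hempE, hFE⟩ := hcJ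
  -- add members of `S` for the remaining points
  choose! c hc using hcov
  have hfin2 : ({z : M | z ∈ F} ∪ c '' {k : M | k ∈ K ∧ ∃ C t : M, k = op C t ∧ t ∈ E}).Finite := by
    refine Set.Finite.union ?_ ((finite_tags hE hempE).image c)
    rwa [isFin_iff] at hF
  obtain ⟨F', hF', -⟩ := exists_finite_set hfin2
  refine ⟨F', fun z hz => ?_, ?_, fun x hx => ?_⟩
  · rcases (hF' z).1 hz with h | ⟨k, hk, rfl⟩
    · exact hFS z h
    · exact (hc k hk.1).1
  · rw [isFinite_iff]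
    exact hfin2.subset fun z hz => (hF' z).1 hz
  · obtain ⟨C, t, rfl⟩ := exists_of_mem_KK hx
    by_cases ht : t ∈ E
    · exact ⟨c (op C t), (hF' _).2 (Or.inr ⟨_, ⟨hx, C, t, rfl, ht⟩, rfl⟩), (hc _ hx).2⟩
    · obtain ⟨U, hU, hU'⟩ := hFE C t hx (mem_cuts.1 (mem_KK.1 hx).1).1 ht
      exact ⟨U, (hF' _).2 (Or.inl hU), hU'⟩

/-! ### the embedding -/

/-- the embedding of `D` -/
noncomputable def hh (J R D f : M) : M :=
  Helper73.Sym.rel D (KK J R D f) (fun d k => ∃ C : M, k = op C (upair d d))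

theorem rel_hh {d k : M} : Rel (hh J R D f) d k ↔
    d ∈ D ∧ k ∈ KK J R D f ∧ ∃ C : M, k = op C (upair d d) := by
  rw [rel_iff, hh, op_mem_rel]

theorem exists_hh (hJ : DLO J R) (hf : Fn f D J) {d : M} (hd : d ∈ D) :
    ∃ C : M, op C (upair d d) ∈ KK J R D f ∧
      ∀ g : M, g ∈ C ↔ g ∈ J ∧ (g = ap f d ∨ op g (ap f d) ∈ R) := by
  have hfd : ap f d ∈ J := ap_mem hf hd
  let B₂ : M := sep J (fun x => x = ap f d ∨ op x (ap f d) ∈ R)
  have mB₂ : ∀ x, x ∈ B₂ ↔ x ∈ J ∧ (x = ap f d ∨ op x (ap f d) ∈ R) := fun x => mem_sep _ _ _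
  have hB₂c : B₂ ∈ cuts J R := by
    refine mem_cuts.2 ⟨fun z hz => ((mB₂ z).1 hz).1, fun x y hx hy hxy => (mB₂ x).2 ⟨hx, ?_⟩⟩
    rcases ((mB₂ y).1 hy).2 with h | h
    · rw [h] at hxy; exact Or.inr hxy
    · exact Or.inr (hJ.trans _ _ _ hx ((mB₂ y).1 hy).1 hfd hxy h)
  exact ⟨B₂, mem_KK.2 ⟨hB₂c, Or.inr ⟨d, hd, rfl, mB₂⟩⟩, mB₂⟩

theorem KK_unique {C C' t : M} (hk : op C t ∈ KK J R D f) (hk' : op C' t ∈ KK J R D f)
    (ht : t ≠ emp) : C = C' := by
  rcases (mem_KK.1 hk).2 with h | ⟨d, hd, h4, h5⟩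
  · exact absurd h ht
  rcases (mem_KK.1 hk').2 with h | ⟨d', hd', h4', h5'⟩
  · exact absurd h ht
  have h6 : d = d' := by
    have h7 : d ∈ upair d' d' := by rw [← h4', h4]; simp
    simpa using h7
  subst h6
  exact mext fun g => by rw [h5, h5']

theorem upair_ne_emp (d : M) : upair d d ≠ emp := by
  intro h
  have : d ∈ (emp : M) := by rw [← h]; simp
  exact mem_emp d this

/-- **Compactifications from maps onto dense linear orders.** -/
theorem exists_compactification (hJ : DLO J R) (hf : Fn f D J)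
    (hsurj : ∀ j : M, j ∈ J → ∃ d : M, d ∈ D ∧ ap f d = j) {T : M} (hT : IsDiscrete D T) :
    ∃ h K T' : M, IsCompactification h D T K T' ∧ ¬ IsScattered K T' := by
  have hinj : ∀ x x' y : M, Rel (hh J R D f) x y → Rel (hh J R D f) x' y → x = x' := by
    intro x x' y h1 h2
    obtain ⟨-, -, C, rfl⟩ := rel_hh.1 h1
    obtain ⟨-, -, C', h⟩ := rel_hh.1 h2
    rw [op_inj] at h
    have h3 : x ∈ upair x' x' := by rw [← h.2]; simp
    simpa using h3
  refine ⟨hh J R D f, KK J R D f, TT J R D f, ⟨isTopology_TT, isCompact_TT hJ, isHausdorff_TT,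
    ⟨⟨?_, ?_⟩, hinj, ?_⟩, ?_⟩, ?_⟩
  · intro z hz
    obtain ⟨a, ha, b, hb, rfl, -⟩ := mem_rel_of hz
    exact ⟨a, b, ha, hb, isOPair_iff.2 rfl⟩
  · intro x hx
    obtain ⟨C, hC, -⟩ := exists_hh hJ hf hx
    refine ⟨_, rel_hh.2 ⟨hx, hC, C, rfl⟩, fun y hy => ?_⟩
    obtain ⟨-, hy, C', rfl⟩ := rel_hh.1 hy
    rw [KK_unique hy hC (upair_ne_emp x)]
  · intro U hU
    refine iff_of_true ((hT U).2 hU) ?_
    refine ⟨sep (KK J R D f) (fun k => ∃ C d : M, k = op C (upair d d) ∧ d ∈ U), ?_, ?_⟩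
    · refine open_of_tag (fun z hz => ((mem_sep _ _ _).1 hz).1) fun C hC => ?_
      rw [mem_sep] at hC
      obtain ⟨-, C', d, h, -⟩ := hC
      rw [op_inj] at h
      exact upair_ne_emp d h.2.symm
    · intro x y hx hxy
      obtain ⟨-, hy, C, rfl⟩ := rel_hh.1 hxy
      rw [mem_sep]
      constructor
      · intro h
        exact ⟨hy, C, x, rfl, h⟩
      · rintro ⟨-, C', d, h, hd⟩
        rw [op_inj] at h
        have h3 : x ∈ upair d d := by rw [← h.2]; simp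
        simp only [mem_upair, or_self] at h3
        rwa [h3]
  · -- density
    rintro V hV ⟨y, hy⟩
    have hyK := (mem_TT.1 hV).1 y hy
    obtain ⟨C, t, rfl⟩ := exists_of_mem_KK hyK
    rcases (mem_KK.1 hyK).2 with rfl | ⟨d, hd, rfl, -⟩
    · obtain ⟨G, E, hG, hGJ, hE, hempE, hnb⟩ := (mem_TT.1 hV).2 C hy
      rw [isFin_iff] at hG hE
      have hE' : {d : M | upair d d ∈ E}.Finite := by
        refine Set.Finite.preimage (f := fun d : M => upair d d) ?_ hE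
        intro a _ b _ hab
        have h3 : a ∈ upair b b := by
          have : upair a a = upair b b := hab
          rw [← this]; simp
        simpa using h3
      obtain ⟨m, hm, hms, hmid⟩ := hJ.exists_mid (mem_KK.1 hyK).1
        (s := {g | g ∈ G} ∪ {j | j ∈ J ∧ j ∈ (fun d => ap f d) '' {d : M | upair d d ∈ E}})
        (hG.union ((hE'.image _).subset fun j hj => hj.2)) (by
          rintro x (hx | hx)
          · exact hGJ x hx
          · exact hx.1)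
      obtain ⟨d, hd, hdm⟩ := hsurj m hm
      obtain ⟨C', hC', hC'2⟩ := exists_hh hJ hf hd
      refine ⟨d, op C' (upair d d), hd, rel_hh.2 ⟨hd, hC', C', rfl⟩, hnb _ _ hC' (fun g hg => ?_)
        (fun hE => ?_)⟩
      · rw [hC'2, hdm, ← hmid g (Or.inl hg)]
        constructor
        · rintro ⟨-, h1 | h1⟩
          · exact absurd (Or.inl (h1 ▸ hg)) hms
          · exact h1
        · intro h1
          exact ⟨hGJ g hg, Or.inr h1⟩
      · exact hms (Or.inr ⟨hm, d, hE, hdm⟩)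
    · exact ⟨d, _, hd, rel_hh.2 ⟨hd, hyK, C, rfl⟩, hy⟩
  · -- not scattered
    intro hsc
    have hemp : (emp : M) ∈ cuts J R := mem_cuts.2 ⟨fun z hz => absurd hz (mem_emp z),
      fun x y _ hy _ => absurd hy (mem_emp y)⟩
    obtain ⟨y, hy, U, hU, hUy⟩ := hsc (sep (KK J R D f) (fun k => ∃ C : M, k = op C emp)
      (h := by exact inferInstance)) (fun z hz => ((mem_sep _ _ _).1 hz).1)
      ⟨op emp emp, (mem_sep _ _ _).2 ⟨mem_KK.2 ⟨hemp, Or.inl rfl⟩, emp, rfl⟩⟩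
    rw [mem_sep] at hy
    obtain ⟨hyK, C, rfl⟩ := hy
    have hyU : op C emp ∈ U := ((hUy _).2 rfl).1
    obtain ⟨G, E, hG, hGJ, hE, hempE, hnb⟩ := (mem_TT.1 hU).2 C hyU
    rw [isFin_iff] at hG
    obtain ⟨m, hm, hms, hmid⟩ := hJ.exists_mid (mem_KK.1 hyK).1 hG fun g hg => hGJ g hg
    let B₁ : M := sep J (fun x => op x m ∈ R)
    have mB₁ : ∀ x, x ∈ B₁ ↔ x ∈ J ∧ op x m ∈ R := fun x => mem_sep _ _ _
    let B₂ : M := sep J (fun x => x = m ∨ op x m ∈ R)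
    have mB₂ : ∀ x, x ∈ B₂ ↔ x ∈ J ∧ (x = m ∨ op x m ∈ R) := fun x => mem_sep _ _ _
    have hB₁c : B₁ ∈ cuts J R :=
      mem_cuts.2 ⟨fun z hz => ((mB₁ z).1 hz).1, fun x y hx hy hxy =>
        (mB₁ x).2 ⟨hx, hJ.trans _ _ _ hx ((mB₁ y).1 hy).1 hm hxy ((mB₁ y).1 hy).2⟩⟩
    have hB₂c : B₂ ∈ cuts J R := by
      refine mem_cuts.2 ⟨fun z hz => ((mB₂ z).1 hz).1, fun x y hx hy hxy => (mB₂ x).2 ⟨hx, ?_⟩⟩
      rcases ((mB₂ y).1 hy).2 with rfl | h
      · exact Or.inr hxy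
      · exact Or.inr (hJ.trans _ _ _ hx ((mB₂ y).1 hy).1 hm hxy h)
    have key : ∀ B : M, B ∈ cuts J R → (∀ g : M, g ∈ G → (g ∈ B ↔ op g m ∈ R)) → B = C := by
      intro B hB hBG
      have hBK : op B emp ∈ KK J R D f := mem_KK.2 ⟨hB, Or.inl rfl⟩
      have h1 : op B emp ∈ U := hnb B emp hBK (fun g hg => by rw [hBG g hg]; exact hmid g hg)
        hempE
      have h2 := (hUy (op B emp)).1 ⟨h1, (mem_sep _ _ _).2 ⟨hBK, B, rfl⟩⟩
      rw [op_inj] at h2
      exact h2.1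
    have h1 := key B₁ hB₁c fun g hg => by
      rw [mB₁]; exact ⟨fun h => h.2, fun h => ⟨hGJ g hg, h⟩⟩
    have h2 := key B₂ hB₂c fun g hg => by
      rw [mB₂]
      refine ⟨fun h => ?_, fun h => ⟨hGJ g hg, Or.inr h⟩⟩
      rcases h.2 with h3 | h3
      · exact absurd (h3 ▸ hg) hms
      · exact h3
    have h3 : m ∈ B₂ := (mB₂ m).2 ⟨hm, Or.inl rfl⟩
    rw [h2, ← h1] at h3
    exact hJ.irr m hm ((mB₁ m).1 h3).2

end

end Pool.Agent.Helper9.INSHC
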