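import Pool.Agent.Helper9.CRT.Defs

/-!
Topological spaces, compactifications, the Cantor cube, Boolean algebras and prime ideals,
interpreted in a structure `(M, ∈)` for the language of set theory. All quantifiers range over
`M` only. (`IsPair`, `IsOPair`, `Rel`, `IsFun`, `IsBij`, `IsNat`, `IsFinite`, `IsSubset` are from
`CRT/Defs.lean`.)
-/

namespace Pool.Agent.Helper9.INSHC

open Pool.Agent.Helper9.CRT

variable {M : Type*} [Membership M M]

/-! ### topology -/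

/-- `T` is a topology on the set `X` -/
def IsTopology (X T : M) : Prop :=
  (∀ U : M, U ∈ T → IsSubset U X) ∧ X ∈ T ∧
  (∀ U V : M, U ∈ T → V ∈ T → ∃ W : M, W ∈ T ∧ ∀ z : M, z ∈ W ↔ z ∈ U ∧ z ∈ V) ∧
  ∀ S : M, IsSubset S T → ∃ W : M, W ∈ T ∧ ∀ z : M, z ∈ W ↔ ∃ U : M, U ∈ S ∧ z ∈ U

/-- every open cover of `(X, T)` has a finite subcover -/
def IsCompact (X T : M) : Prop :=
  ∀ S : M, IsSubset S T → (∀ x : M, x ∈ X → ∃ U : M, U ∈ S ∧ x ∈ U) →
    ∃ F : M, IsSubset F S ∧ IsFinite F ∧ ∀ x : M, x ∈ X → ∃ U : M, U ∈ F ∧ x ∈ U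

/-- `(X, T)` is Hausdorff -/
def IsHausdorff (X T : M) : Prop :=
  ∀ x y : M, x ∈ X → y ∈ X → x ≠ y →
    ∃ U V : M, U ∈ T ∧ V ∈ T ∧ x ∈ U ∧ y ∈ V ∧ ∀ z : M, ¬ (z ∈ U ∧ z ∈ V)

/-- `(X, T)` is scattered: every nonempty subspace has an isolated point -/
def IsScattered (X T : M) : Prop :=
  ∀ Y : M, IsSubset Y X → (∃ y : M, y ∈ Y) →
    ∃ y : M, y ∈ Y ∧ ∃ U : M, U ∈ T ∧ ∀ z : M, z ∈ U ∧ z ∈ Y ↔ z = y

/-- `T` is the discrete topology on `D` (the power set of `D`) -/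
def IsDiscrete (D T : M) : Prop := ∀ U : M, U ∈ T ↔ IsSubset U D

/-- `h` is a homeomorphic embedding of `(X, T)` into `(K, T')`: an injective function such that
the open subsets of `X` are exactly the preimages of the open subsets of `K` -/
def IsEmbedding (h X T K T' : M) : Prop :=
  IsFun h X K ∧ (∀ x x' y : M, Rel h x y → Rel h x' y → x = x') ∧
  ∀ U : M, IsSubset U X →
    (U ∈ T ↔ ∃ V : M, V ∈ T' ∧ ∀ x y : M, x ∈ X → Rel h x y → (x ∈ U ↔ y ∈ V))

/-- the image of `h` (a function on `X`) is dense in `(K, T')` -/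
def IsDense (h X T' : M) : Prop :=
  ∀ V : M, V ∈ T' → (∃ y : M, y ∈ V) → ∃ x y : M, x ∈ X ∧ Rel h x y ∧ y ∈ V

/-- `(K, T')` with `h` is a Hausdorff compactification of `(X, T)` -/
def IsCompactification (h X T K T' : M) : Prop :=
  IsTopology K T' ∧ IsCompact K T' ∧ IsHausdorff K T' ∧ IsEmbedding h X T K T' ∧ IsDense h X T'

/-- `R` is the set `K ∖ h[X]` -/
def IsRemainder (h X K R : M) : Prop :=
  ∀ z : M, z ∈ R ↔ z ∈ K ∧ ¬ ∃ x : M, x ∈ X ∧ Rel h x z

/-- `T'` is the subspace topology on the subset `R` of `(K, T)` -/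
def IsSubspaceTopology (T R T' : M) : Prop :=
  ∀ U : M, U ∈ T' ↔ ∃ V : M, V ∈ T ∧ ∀ z : M, z ∈ U ↔ z ∈ V ∧ z ∈ R

/-- `g` is a homeomorphism of `(Y, T)` onto `(R, T')` -/
def IsHomeomorphism (g Y T R T' : M) : Prop :=
  IsBij g Y R ∧
  ∀ U V : M, IsSubset U Y → IsSubset V R →
    (∀ y r : M, y ∈ Y → Rel g y r → (y ∈ U ↔ r ∈ V)) → (U ∈ T ↔ V ∈ T')

/-- the space `(Y, T)` is a remainder of the space `(X, T₀)` -/
def IsARemainderOf (Y T X T₀ : M) : Prop :=
  ∃ h K T' R T'' g : M, IsCompactification h X T₀ K T' ∧ IsRemainder h X K R ∧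
    IsSubspaceTopology T' R T'' ∧ IsHomeomorphism g Y T R T''

/-! ### the Cantor cube -/

/-- `w` is the set of natural numbers -/
def IsOmega (w : M) : Prop := ∀ n : M, n ∈ w ↔ IsNat n

/-- `t` is the number `2 = {∅, {∅}}` -/
def IsTwo (t : M) : Prop :=
  ∃ e s : M, (∀ z : M, ¬ z ∈ e) ∧ IsPair e e s ∧ IsPair e s t

/-- `(C, T)` is the Cantor cube `2^ω` with the product topology: a set `U` of functions is open
if and only if each `f ∈ U` has a finite set `F` of coordinates such that all functions that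
agree with `f` on `F` are in `U` -/
def IsCantorCube (C T : M) : Prop :=
  ∃ w t : M, IsOmega w ∧ IsTwo t ∧ (∀ f : M, f ∈ C ↔ IsFun f w t) ∧
    ∀ U : M, U ∈ T ↔ IsSubset U C ∧ ∀ f : M, f ∈ U → ∃ F : M, IsSubset F w ∧ IsFinite F ∧
      ∀ g : M, g ∈ C → (∀ n k : M, n ∈ F → (Rel f n k ↔ Rel g n k)) → g ∈ U

/-! ### Boolean algebras -/

/-- `z` is the least element of `B` in the order `L` -/
def IsLeast (B L z : M) : Prop := z ∈ B ∧ ∀ x : M, x ∈ B → Rel L z x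

/-- `z` is the greatest element of `B` in the order `L` -/
def IsGreatest (B L z : M) : Prop := z ∈ B ∧ ∀ x : M, x ∈ B → Rel L x z

/-- `z` is the infimum of `x` and `y` -/
def IsInf (B L x y z : M) : Prop :=
  z ∈ B ∧ Rel L z x ∧ Rel L z y ∧ ∀ w : M, w ∈ B → Rel L w x → Rel L w y → Rel L w z

/-- `z` is the supremum of `x` and `y` -/
def IsSup (B L x y z : M) : Prop :=
  z ∈ B ∧ Rel L x z ∧ Rel L y z ∧ ∀ w : M, w ∈ B → Rel L x w → Rel L y w → Rel L z w

/-- `(B, L)` is a nontrivial Boolean algebra: a complemented distributive lattice with least and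
greatest elements `0 ≠ 1` (`Rel L x y` is `x ≤ y`) -/
def IsBooleanAlgebra (B L : M) : Prop :=
  (∀ x : M, x ∈ B → Rel L x x) ∧
  (∀ x y : M, x ∈ B → y ∈ B → Rel L x y → Rel L y x → x = y) ∧
  (∀ x y z : M, x ∈ B → y ∈ B → z ∈ B → Rel L x y → Rel L y z → Rel L x z) ∧
  (∀ x y : M, x ∈ B → y ∈ B → ∃ z : M, IsInf B L x y z) ∧
  (∀ x y : M, x ∈ B → y ∈ B → ∃ z : M, IsSup B L x y z) ∧
  (∀ x y z s a b c : M, x ∈ B → y ∈ B → z ∈ B → IsSup B L y z s → IsInf B L x s a →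
    IsInf B L x y b → IsInf B L x z c → IsSup B L b c a) ∧
  ∃ o i : M, IsLeast B L o ∧ IsGreatest B L i ∧ o ≠ i ∧
    ∀ x : M, x ∈ B → ∃ y : M, y ∈ B ∧ IsInf B L x y o ∧ IsSup B L x y i

/-- `I` is a prime ideal of `(B, L)`: a proper ideal with `x ∧ y ∈ I` only if `x ∈ I` or
`y ∈ I` -/
def IsPrimeIdeal (B L I : M) : Prop :=
  IsSubset I B ∧ (∀ o : M, IsLeast B L o → o ∈ I) ∧ (∀ i : M, IsGreatest B L i → ¬ i ∈ I) ∧
  (∀ x y : M, x ∈ B → y ∈ I → Rel L x y → x ∈ I) ∧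
  (∀ x y z : M, x ∈ I → y ∈ I → IsSup B L x y z → z ∈ I) ∧
  ∀ x y z : M, x ∈ B → y ∈ B → IsInf B L x y z → z ∈ I → x ∈ I ∨ y ∈ I

/-! ### the three principles -/

variable (M)

/-- `BPI`: every Boolean algebra has a prime ideal -/
def BPI : Prop := ∀ B L : M, IsBooleanAlgebra B L → ∃ I : M, IsPrimeIdeal B L I

/-- `IDFBI`: for every infinite set `D`, the Cantor cube is a remainder of the discrete space
on `D` -/
def IDFBI : Prop :=
  ∀ D T C T' : M, ¬ IsFinite D → IsDiscrete D T → IsCantorCube C T' → IsARemainderOf C T' D T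

/-- `INSHC`: every infinite discrete space has a Hausdorff compactification that is not
scattered -/
def INSHC : Prop :=
  ∀ D T : M, ¬ IsFinite D → IsDiscrete D T →
    ∃ h K T' : M, IsCompactification h D T K T' ∧ ¬ IsScattered K T'

end Pool.Agent.Helper9.INSHC
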