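import Pool.Agent.Helper9.INSHC.Lin
import Pool.Agent.Helper9.INSHC.Cantor

/-!
The final reduction: what has to be checked in a model.
-/

namespace Pool.Agent.Helper9.INSHC

open Pool.Agent.Helper9.CRT Pool.Agent.Helper73.Sym

set_option synthInstance.maxSize 2000

section

variable {M : Type*} [Membership M M] [StdZF M]

theorem isFinite_iff_isFin {x : M} : IsFinite x ↔ IsFin x := by
  rw [isFinite_iff, isFin_iff]

/-- the members of `C` containing `x` -/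
noncomputable def trc (C x : M) : M := sep C (fun S => x ∈ S)

theorem mem_trc {C x S : M} : S ∈ trc C x ↔ S ∈ C ∧ x ∈ S := by
  rw [trc, mem_sep]

instance DT.trc' (C : M) {t : (ℕ → M) → M} [ht : DT t] : DT (fun v => trc C (t v)) :=
  DT.app1 (Dfn.congr (S := fun v : ℕ → M => ∀ z : M, z ∈ v 0 ↔ z ∈ C ∧ v 1 ∈ z)
    (by exact inferInstance)
    fun v => ⟨fun h z => by rw [h, mem_trc], fun h => mext fun z => by rw [h, mem_trc]⟩) ht

/-- an infinite chain of subsets of `D` gives a map of `D` onto a dense linear order -/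
theorem exists_onto_of_chain {D C : M} (hC : ∀ S : M, S ∈ C → Sub S D)
    (htot : ∀ S S' : M, S ∈ C → S' ∈ C → Sub S S' ∨ Sub S' S) (hinf : ¬ IsFin C) :
    ∃ J R f : M, DLO J R ∧ Fn f D J ∧ ∀ j : M, j ∈ J → ∃ y : M, y ∈ D ∧ ap f y = j := by
  classical
  set L : M := img (fun x => trc C x) D with hL
  have mL : ∀ a, a ∈ L ↔ ∃ x : M, x ∈ D ∧ a = trc C x := fun a => by rw [hL, mem_img]
  have hcomp : ∀ x y : M, Sub (trc C x) (trc C y) ∨ Sub (trc C y) (trc C x) := by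
    intro x y
    by_contra hne
    rw [not_or] at hne
    obtain ⟨h1, h2⟩ := hne
    unfold Helper73.Sym.Sub at h1 h2
    push Not at h1 h2
    obtain ⟨S, hS, hS'⟩ := h1
    obtain ⟨T, hT, hT'⟩ := h2
    rw [mem_trc] at hS hT
    rcases htot S T hS.1 hT.1 with h | h
    · exact hT' (mem_trc.2 ⟨hT.1, h x hS.2⟩)
    · exact hS' (mem_trc.2 ⟨hS.1, h y hT.2⟩)
  have mR : ∀ a b : M, op a b ∈ Helper73.Sym.rel L L (fun a b => Sub a b ∧ ¬ a = b) ↔
      a ∈ L ∧ b ∈ L ∧ Sub a b ∧ ¬ a = b := fun a b => op_mem_rel _ _ _ _ _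
  have hLO : LO L (Helper73.Sym.rel L L (fun a b => Sub a b ∧ ¬ a = b)) := by
    refine ⟨?_, ?_, ?_⟩
    · intro x _ h
      exact ((mR x x).1 h).2.2.2 rfl
    · intro x y z hx hy hz h1 h2
      rw [mR] at h1 h2 ⊢
      refine ⟨hx, hz, fun w hw => h2.2.2.1 w (h1.2.2.1 w hw), ?_⟩
      rintro rfl
      exact h1.2.2.2 (sub_antisymm h1.2.2.1 h2.2.2.1)
    · intro x y hx hy
      by_cases hxy : x = y
      · exact Or.inl hxy
      right
      rw [mR, mR]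
      obtain ⟨a, -, rfl⟩ := (mL x).1 hx
      obtain ⟨b, -, rfl⟩ := (mL y).1 hy
      rcases hcomp a b with h | h
      · exact Or.inl ⟨hx, hy, h, hxy⟩
      · exact Or.inr ⟨hy, hx, h, fun h => hxy h.symm⟩
  have hLinf : ¬ IsFin L := by
    intro hfin
    apply hinf
    rw [isFin_iff] at hfin ⊢
    have : Finite {z : M | z ∈ L} := hfin
    have hinj : Function.Injective (fun S : {z : M // z ∈ C} =>
        ({a : {z : M | z ∈ L} | S.1 ∈ a.1} : Set {z : M | z ∈ L})) := by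
      intro S T hST
      apply Subtype.ext
      apply mext
      have key : ∀ x : M, x ∈ D → (x ∈ S.1 ↔ x ∈ T.1) := by
        intro x hx
        have hxL : trc C x ∈ L := (mL _).2 ⟨x, hx, rfl⟩
        have h1 := Set.ext_iff.1 hST ⟨trc C x, hxL⟩
        simp only [Set.mem_ofPred_eq, mem_trc] at h1
        exact ⟨fun h => (h1.1 ⟨S.2, h⟩).2, fun h => (h1.2 ⟨T.2, h⟩).2⟩
      intro x
      by_cases hx : x ∈ D
      · exact key x hx
      · exact iff_of_false (fun h => hx (hC _ S.2 x h)) (fun h => hx (hC _ T.2 x h))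
    have hfin2 : Finite {z : M // z ∈ C} := Finite.of_injective _ hinj
    exact Set.finite_coe_iff.1 hfin2
  obtain ⟨J, R, f, hJ, hf, hfs⟩ := hLO.exists_onto_dlo hLinf
  have hT : Fn (lam D (fun x => trc C x)) D L :=
    lam_fn fun x hx => (mL _).2 ⟨x, hx, rfl⟩
  obtain ⟨g, hg, hgs⟩ := exists_comp hT hf (fun a ha => by
    obtain ⟨x, hx, rfl⟩ := (mL a).1 ha
    exact ⟨x, hx, ap_lam hx⟩) hfs
  exact ⟨J, R, g, hJ, hg, hgs⟩

/-- `INSHC` from infinite chains in power sets -/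
theorem inshc_of_chains (h : ∀ D : M, ¬ IsFin D → ∃ C : M, (∀ S : M, S ∈ C → Sub S D) ∧
    (∀ S S' : M, S ∈ C → S' ∈ C → Sub S S' ∨ Sub S' S) ∧ ¬ IsFin C) : INSHC M := by
  intro D T hD hT
  rw [isFinite_iff_isFin] at hD
  obtain ⟨C, h1, h2, h3⟩ := h D hD
  obtain ⟨J, R, f, hJ, hf, hfs⟩ := exists_onto_of_chain h1 h2 h3
  exact exists_compactification hJ hf hfs hT

/-- the number two -/
noncomputable def twoM : M := upair emp (upair emp emp)

/-- the functions from the natural numbers to two -/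
noncomputable def cubeM : M :=
  sep (pw (prod om twoM)) (fun f => Fn f om twoM) (h := by exact inferInstance)

theorem mem_cubeM {f : M} : f ∈ (cubeM : M) ↔ Fn f om twoM := by
  rw [cubeM, mem_sep, mem_pw]
  refine ⟨fun h => h.2, fun h => ⟨fun z hz => ?_, h⟩⟩
  obtain ⟨a, ha, b, hb, rfl⟩ := h.1 z hz
  exact (op_mem_prod _ _ _ _).2 ⟨ha, hb⟩

/-- the product topology -/
noncomputable def cubeT : M :=
  sep (pw (cubeM : M)) (fun U => ∀ f : M, f ∈ U → ∃ F : M, Sub F om ∧ IsFin F ∧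
    ∀ g : M, g ∈ (cubeM : M) → (∀ n k : M, n ∈ F → (op n k ∈ f ↔ op n k ∈ g)) → g ∈ U)
    (h := by exact inferInstance)

/-- existence of the Cantor cube -/
theorem exists_cantorCube : ∃ C T : M, IsCantorCube C T := by
  have h2 : IsTwo (twoM : M) :=
    ⟨emp, upair emp emp, mem_emp, isPair_iff.2 rfl, isPair_iff.2 rfl⟩
  refine ⟨cubeM, cubeT, om, twoM, ?_, h2, ?_, ?_⟩
  · intro n
    rw [mem_om, isNat_iff]
  · intro f
    rw [mem_cubeM, isFun_iff]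
  · intro U
    rw [cubeT, mem_sep, mem_pw]
    refine and_congr_right fun _ => forall_congr' fun f => imp_congr Iff.rfl
      (exists_congr fun F => ?_)
    simp only [isFinite_iff_isFin, rel_iff]
    rfl

/-- `IDFBI` gives a sequence of classes modulo finite sets -/
theorem exists_seq_of_idfbi (h : IDFBI M) {D : M} (hD : ¬ IsFin D) :
    ∃ s : M, Fn s om (pw (pw D)) ∧
      (∀ n m : ℕ, n ≠ m → ap s (nat n) ≠ ap s (nat m)) ∧
      ∀ n : ℕ, ∃ S : M, Sub S D ∧ ∀ S' : M, S' ∈ ap s (nat n) ↔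
        Sub S' D ∧ IsFin (df S S') ∧ IsFin (df S' S) := by
  obtain ⟨C, T', hC⟩ := exists_cantorCube (M := M)
  have hdisc : IsDiscrete D (pw D) := fun U => mem_pw _ _
  obtain ⟨Γ, h1, h2, h3⟩ := exists_family hdisc hC
    (h D (pw D) C T' (fun h' => hD (isFinite_iff_isFin.1 h')) hdisc hC)
  -- the sequence
  have mrel : ∀ n X : M, op n X ∈ Helper73.Sym.rel (om : M) (pw (pw D)) (fun n X =>
      ∀ S' : M, S' ∈ X ↔ Sub S' D ∧ ∃ S : M, Sub S D ∧ op n S ∈ Γ ∧ IsFin (df S S') ∧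
        IsFin (df S' S)) ↔ n ∈ (om : M) ∧ X ∈ pw (pw D) ∧ ∀ S' : M, S' ∈ X ↔ Sub S' D ∧
        ∃ S : M, Sub S D ∧ op n S ∈ Γ ∧ IsFin (df S S') ∧ IsFin (df S' S) :=
    fun n X => op_mem_rel _ _ _ _ _
  have hfn : Fn (Helper73.Sym.rel (om : M) (pw (pw D)) (fun n X =>
      ∀ S' : M, S' ∈ X ↔ Sub S' D ∧ ∃ S : M, Sub S D ∧ op n S ∈ Γ ∧ IsFin (df S S') ∧
        IsFin (df S' S))) om (pw (pw D)) := by
    refine rel_fn fun n _ => ?_
    refine ⟨sep (pw D) (fun S' => ∃ S : M, Sub S D ∧ op n S ∈ Γ ∧ IsFin (df S S') ∧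
        IsFin (df S' S)), ?_, ?_, ?_⟩
    · rw [mem_pw]
      exact fun z hz => ((mem_sep _ _ _).1 hz).1
    · intro S'
      rw [mem_sep, mem_pw]
    · intro c _ hc
      apply mext
      intro S'
      rw [hc, mem_sep, mem_pw]
  have hap : ∀ (n : ℕ) (S' : M), S' ∈ ap (Helper73.Sym.rel (om : M) (pw (pw D)) (fun n X =>
      ∀ S' : M, S' ∈ X ↔ Sub S' D ∧ ∃ S : M, Sub S D ∧ op n S ∈ Γ ∧ IsFin (df S S') ∧
        IsFin (df S' S))) (nat n) ↔ Sub S' D ∧ ∃ S : M, Sub S D ∧ op (nat n) S ∈ Γ ∧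
        IsFin (df S S') ∧ IsFin (df S' S) := fun n =>
    ((mrel _ _).1 (ap_spec hfn (nat_mem_om n))).2.2
  -- almost equality
  have hae : ∀ {S S' : M}, Sub S D → Sub S' D → ((IsFin (df S S') ∧ IsFin (df S' S)) ↔
      {x : M | x ∈ D ∧ ¬ (x ∈ S ↔ x ∈ S')}.Finite) := by
    intro S S' hS hS'
    rw [isFin_iff, isFin_iff]
    constructor
    · rintro ⟨h4, h5⟩
      refine (h4.union h5).subset ?_
      rintro x ⟨-, hx⟩
      simp only [Set.mem_union, Set.mem_ofPred_eq, mem_df]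
      tauto
    · intro h4
      constructor
      · refine h4.subset fun x hx => ?_
        have hx' : x ∈ S ∧ ¬ x ∈ S' := (mem_df _ _ _).1 hx
        exact ⟨hS x hx'.1, by tauto⟩
      · refine h4.subset fun x hx => ?_
        have hx' : x ∈ S' ∧ ¬ x ∈ S := (mem_df _ _ _).1 hx
        exact ⟨hS' x hx'.1, by tauto⟩
  have htrans : ∀ {S T U : M}, {x : M | x ∈ D ∧ ¬ (x ∈ S ↔ x ∈ T)}.Finite →
      {x : M | x ∈ D ∧ ¬ (x ∈ T ↔ x ∈ U)}.Finite → {x : M | x ∈ D ∧ ¬ (x ∈ S ↔ x ∈ U)}.Finite := by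
    intro S T U h4 h5
    refine (h4.union h5).subset ?_
    rintro x ⟨hxD, hx⟩
    simp only [Set.mem_union, Set.mem_ofPred_eq]
    tauto
  have hsymm : ∀ {S T : M}, {x : M | x ∈ D ∧ ¬ (x ∈ S ↔ x ∈ T)}.Finite →
      {x : M | x ∈ D ∧ ¬ (x ∈ T ↔ x ∈ S)}.Finite := by
    intro S T h4
    refine h4.subset ?_
    rintro x ⟨hxD, hx⟩
    exact ⟨hxD, fun h => hx h.symm⟩
  refine ⟨_, hfn, ?_, ?_⟩
  · intro n m hnm he
    obtain ⟨U, hU, hUΓ⟩ := h1 n
    have hUn : U ∈ ap (Helper73.Sym.rel (om : M) (pw (pw D)) (fun n X =>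
      ∀ S' : M, S' ∈ X ↔ Sub S' D ∧ ∃ S : M, Sub S D ∧ op n S ∈ Γ ∧ IsFin (df S S') ∧
        IsFin (df S' S))) (nat n) := (hap n U).2 ⟨hU, U, hU, hUΓ, (hae hU hU).2 (by simp)⟩
    rw [he, hap] at hUn
    obtain ⟨-, V, hV, hVΓ, h4⟩ := hUn
    exact h3 n m U V hnm hUΓ hVΓ (hsymm ((hae hV hU).1 h4))
  · intro n
    obtain ⟨U, hU, hUΓ⟩ := h1 n
    refine ⟨U, hU, fun S' => ?_⟩
    rw [hap]
    refine and_congr_right fun hS' => ?_
    constructor
    · rintro ⟨V, hV, hVΓ, h4⟩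
      rw [hae hV hS'] at h4
      rw [hae hU hS']
      exact htrans (h2 n U V hUΓ hVΓ) h4
    · intro h4
      exact ⟨U, hU, hUΓ, h4⟩

/-- **The final reduction.** -/
theorem final (A : M) (hA : ∀ t : M, t ∈ A → ∃ x y : M, x ≠ y ∧ t = upair x y)
    (hdis : ∀ t t' z : M, t ∈ A → t' ∈ A → z ∈ t → z ∈ t' → t = t')
    (hch : ¬ ∃ C : M, ∀ t : M, t ∈ A → ∃ x : M, x ∈ t ∧ x ∈ C ∧ ∀ y : M, y ∈ t → y ∈ C → y = x)
    (D : M) (hD : ¬ IsFin D)
    (hs : ¬ ∃ s : M, Fn s om (pw (pw D)) ∧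
      (∀ n m : ℕ, n ≠ m → ap s (nat n) ≠ ap s (nat m)) ∧
      ∀ n : ℕ, ∃ S : M, Sub S D ∧ ∀ S' : M, S' ∈ ap s (nat n) ↔
        Sub S' D ∧ IsFin (df S S') ∧ IsFin (df S' S))
    (hchains : ∀ D : M, ¬ IsFin D → ∃ C : M, (∀ S : M, S ∈ C → Sub S D) ∧
      (∀ S S' : M, S ∈ C → S' ∈ C → Sub S S' ∨ Sub S' S) ∧ ¬ IsFin C) :
    INSHC M ∧ ¬ BPI M ∧ ¬ IDFBI M := by
  refine ⟨inshc_of_chains hchains, fun h => hch ?_, fun h => hs (exists_seq_of_idfbi h hD)⟩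
  obtain ⟨C, hC⟩ := exists_choice_of_bpi h A hA hdis
  refine ⟨C, fun t ht => ?_⟩
  obtain ⟨x, ⟨hx1, hx2⟩, hx3⟩ := hC t ht
  exact ⟨x, hx1, hx2, fun y hy1 hy2 => hx3 y ⟨hy1, hy2⟩⟩

end

end Pool.Agent.Helper9.INSHC
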