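import Pool.Agent.Helper9.INSHC.Rat

/-!
In ZF: every infinite linearly ordered set can be mapped onto a dense linear order without
endpoints.
-/

namespace Pool.Agent.Helper9.INSHC

open Pool.Agent.Helper9.CRT Pool.Agent.Helper73.Sym

set_option synthInstance.maxSize 2000

/-! ### facts on linear orders -/

section

variable {α : Type*} [LinearOrder α]

theorem ico_max {x y : α} (hfin : (Set.Ico x y).Finite) (hne : (Set.Ico x y).Nonempty) :
    ∃ y' : α, x ≤ y' ∧ (Set.Ico x y').Finite ∧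
      (Set.Ico x y).ncard = (Set.Ico x y').ncard + 1 := by
  obtain ⟨m, hm, hmax⟩ := hfin.exists_maximal hne
  have h1 : Set.Ico x y = insert m (Set.Ico x m) := by
    ext z
    simp only [Set.mem_Ico, Set.mem_insert_iff]
    constructor
    · rintro ⟨h2, h3⟩
      rcases lt_trichotomy z m with h4 | h4 | h4
      · exact Or.inr ⟨h2, h4⟩
      · exact Or.inl h4
      · exact absurd h4 (not_lt_of_ge (hmax ⟨h2, h3⟩ h4.le))
    · rintro (rfl | ⟨h2, h3⟩)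
      · exact hm
      · exact ⟨h2, h3.trans hm.2⟩
  have hfin' : (Set.Ico x m).Finite := hfin.subset (by rw [h1]; exact Set.subset_insert _ _)
  refine ⟨m, hm.1, hfin', ?_⟩
  conv_lhs => rw [h1]
  rw [Set.ncard_insert_of_notMem (by simp) hfin']

theorem exists_ncard {x₀ : α} (hinf : {y : α | x₀ ≤ y ∧ (Set.Ico x₀ y).Finite}.Infinite) (n : ℕ) :
    ∃ y : α, x₀ ≤ y ∧ (Set.Ico x₀ y).Finite ∧ (Set.Ico x₀ y).ncard = n := by
  -- large values
  have hinj : Set.InjOn (fun y => (Set.Ico x₀ y).ncard)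
      {y : α | x₀ ≤ y ∧ (Set.Ico x₀ y).Finite} := by
    have key : ∀ y z : α, x₀ ≤ y → y < z → (Set.Ico x₀ z).Finite →
        (Set.Ico x₀ y).ncard < (Set.Ico x₀ z).ncard := by
      intro y z hy hyz hz
      apply Set.ncard_lt_ncard _ hz
      refine ⟨fun w hw => ⟨hw.1, hw.2.trans hyz⟩, fun h => ?_⟩
      exact lt_irrefl y (h ⟨hy, hyz⟩).2
    intro y hy z hz he
    simp only at he
    rcases lt_trichotomy y z with h | h | h
    · have := key y z hy.1 h hz.2; omega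
    · exact h
    · have := key z y hz.1 h hy.2; omega
  have himg : ((fun y => (Set.Ico x₀ y).ncard) '' {y : α | x₀ ≤ y ∧ (Set.Ico x₀ y).Finite}).Infinite :=
    hinf.image hinj
  obtain ⟨N, ⟨y, hy, rfl⟩, hN⟩ := himg.exists_gt n
  -- go down
  have down : ∀ (d : ℕ) (y : α), x₀ ≤ y → (Set.Ico x₀ y).Finite → (Set.Ico x₀ y).ncard = n + d →
      ∃ y : α, x₀ ≤ y ∧ (Set.Ico x₀ y).Finite ∧ (Set.Ico x₀ y).ncard = n := by
    intro d
    induction d with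
    | zero => intro y h1 h2 h3; exact ⟨y, h1, h2, h3⟩
    | succ d ih =>
      intro y h1 h2 h3
      have hne : (Set.Ico x₀ y).Nonempty := by
        rw [← Set.ncard_pos h2]; omega
      obtain ⟨y', h4, h5, h6⟩ := ico_max h2 hne
      exact ih y' h4 h5 (by omega)
  simp only at hN
  exact down ((Set.Ico x₀ y).ncard - n) y hy.1 hy.2 (by omega)

/-- the finite condensation class -/
def cls (x : α) : Set α := {y | (Set.uIcc x y).Finite}

theorem mem_cls_self (x : α) : x ∈ cls x := by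
  simp [cls]

theorem cls_symm {x y : α} (h : y ∈ cls x) : x ∈ cls y := by
  rw [cls, Set.mem_ofPred_eq, Set.uIcc_comm]; exact h

theorem cls_trans {x y z : α} (h : y ∈ cls x) (h' : z ∈ cls y) : z ∈ cls x :=
  (Set.Finite.union h h').subset Set.uIcc_subset_uIcc_union_uIcc

variable (hfin : ∀ x : α, (cls x).Finite)

include hfin

/-- least elements of the classes -/
theorem exists_mn (x : α) : ∃ m : α, m ∈ cls x ∧ ∀ y ∈ cls m, m ≤ y := by
  obtain ⟨m, hm, hmin⟩ := (hfin x).exists_minimal ⟨x, mem_cls_self x⟩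
  refine ⟨m, hm, fun y hy => ?_⟩
  by_contra h
  push Not at h
  exact absurd h (not_lt_of_ge (hmin (cls_trans hm hy) h.le))

theorem dense_mn {x y : α} (_hx : ∀ z ∈ cls x, x ≤ z) (hy : ∀ z ∈ cls y, y ≤ z) (hxy : x < y) :
    ∃ z : α, (∀ w ∈ cls z, z ≤ w) ∧ x < z ∧ z < y := by
  have hne : ¬ y ∈ cls x := fun h => absurd (hy x (cls_symm h)) (not_le_of_gt hxy)
  have hinf : (Set.uIcc x y).Infinite := hne
  obtain ⟨w, hw, hw'⟩ := (hinf.sdiff ((hfin x).union (hfin y))).nonempty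
  rw [Set.mem_union, not_or] at hw'
  rw [Set.uIcc_of_le hxy.le] at hw
  obtain ⟨m, hm, hmin⟩ := exists_mn hfin w
  refine ⟨m, hmin, ?_, ?_⟩
  · by_contra h
    push Not at h
    apply hw'.1
    have h1 : (Set.uIcc w m).Finite := hm
    rw [Set.uIcc_of_ge (h.trans hw.1)] at h1
    show (Set.uIcc x w).Finite
    rw [Set.uIcc_of_le hw.1]
    exact h1.subset (Set.Icc_subset_Icc_left h)
  · have h1 : m ≤ w := hmin w (cls_symm hm)
    refine lt_of_le_of_ne (h1.trans hw.2) ?_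
    rintro rfl
    exact hw'.2 (cls_symm hm)

theorem infinite_mn [Infinite α] : {x : α | ∀ z ∈ cls x, x ≤ z}.Infinite := by
  intro h
  have h1 : (Set.univ : Set α).Finite := by
    refine (h.biUnion (t := fun x => cls x) fun x _ => hfin x).subset fun y _ => ?_
    obtain ⟨m, hm, hmin⟩ := exists_mn hfin y
    exact Set.mem_biUnion (show m ∈ {x : α | ∀ z ∈ cls x, x ≤ z} from hmin) (cls_symm hm)
  exact Set.infinite_univ h1

end

section

variable {M : Type*} [Membership M M] [StdZF M]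

/-- `R` is a (strict) linear order on the set `L` -/
structure LO (L R : M) : Prop where
  irr : ∀ x : M, x ∈ L → ¬ op x x ∈ R
  trans : ∀ x y z : M, x ∈ L → y ∈ L → z ∈ L → op x y ∈ R → op y z ∈ R → op x z ∈ R
  tot : ∀ x y : M, x ∈ L → y ∈ L → x = y ∨ op x y ∈ R ∨ op y x ∈ R

variable {L R : M}

theorem LO.exists_lin (h : LO L R) : ∃ I : LinearOrder {x : M // x ∈ L},
    ∀ x y : {x : M // x ∈ L}, I.lt x y ↔ op x.1 y.1 ∈ R := by
  classical
  let r : {x : M // x ∈ L} → {x : M // x ∈ L} → Prop := fun x y => op x.1 y.1 ∈ R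
  have hr : IsStrictTotalOrder {x : M // x ∈ L} r :=
    { trichotomous := fun x y hxy hyx => by
        rcases h.tot x.1 y.1 x.2 y.2 with h1 | h1 | h1
        · exact Subtype.ext h1
        · exact absurd h1 hxy
        · exact absurd h1 hyx
      irrefl := fun x => h.irr x.1 x.2
      trans := fun x y z h1 h2 => h.trans _ _ _ x.2 y.2 z.2 h1 h2 }
  exact ⟨linearOrderOfSTO r, fun x y => Iff.rfl⟩

theorem LO.rev (h : LO L R) : ∃ R' : M, LO L R' ∧ ∀ x y : M, x ∈ L → y ∈ L →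
    (op x y ∈ R' ↔ op y x ∈ R) := by
  have key : ∀ x y : M, x ∈ L → y ∈ L →
      (op x y ∈ Helper73.Sym.rel L L (fun a b => op b a ∈ R) ↔ op y x ∈ R) := by
    intro x y hx hy
    rw [op_mem_rel]
    exact ⟨fun h => h.2.2, fun h => ⟨hx, hy, h⟩⟩
  refine ⟨_, ⟨?_, ?_, ?_⟩, key⟩
  · intro x hx; rw [key x x hx hx]; exact h.irr x hx
  · intro x y z hx hy hz h1 h2
    rw [key _ _ hx hy] at h1
    rw [key _ _ hy hz] at h2
    rw [key _ _ hx hz]
    exact h.trans z y x hz hy hx h2 h1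
  · intro x y hx hy
    rw [key x y hx hy, key y x hy hx]
    rcases h.tot x y hx hy with h1 | h1 | h1
    · exact Or.inl h1
    · exact Or.inr (Or.inr h1)
    · exact Or.inr (Or.inl h1)

/-- `n` is the number of elements of `x` -/
def Crd (x n : M) : Prop := ∃ u : M, Fn u n x ∧ (∀ a : M, a ∈ x → ∃ k : M, k ∈ n ∧ ap u k = a) ∧
  ∀ k l : M, k ∈ n → l ∈ n → ap u k = ap u l → k = l

instance Dfn.crd {t u : (ℕ → M) → M} [ht : DT t] [hu : DT u] : Dfn (fun v => Crd (t v) (u v)) :=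
  Dfn.rel2 (R := Crd) (inferInstanceAs (Dfn (fun v : ℕ → M =>
    ∃ u : M, Fn u (v 1) (v 0) ∧ (∀ a : M, a ∈ v 0 → ∃ k : M, k ∈ v 1 ∧ ap u k = a) ∧
      ∀ k l : M, k ∈ v 1 → l ∈ v 1 → ap u k = ap u l → k = l))) ht hu

theorem crd_iff {x : M} {n : ℕ} : Crd x (nat n) ↔
    {z : M | z ∈ x}.Finite ∧ {z : M | z ∈ x}.ncard = n := by
  constructor
  · rintro ⟨u, hu, hsurj, hinj⟩
    have h1 : {z : M | z ∈ x} = (fun k : ℕ => ap u (nat k)) '' (Set.Iio n) := by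
      ext z
      constructor
      · intro hz
        obtain ⟨k, hk, rfl⟩ := hsurj z hz
        obtain ⟨l, hl, rfl⟩ := (mem_nat n k).1 hk
        exact ⟨l, hl, rfl⟩
      · rintro ⟨l, hl, rfl⟩
        exact ap_mem hu (nat_mem_nat.2 hl)
    have hinj' : Set.InjOn (fun k : ℕ => ap u (nat k)) (Set.Iio n) := by
      intro k hk l hl h
      exact nat_inj.1 (hinj _ _ (nat_mem_nat.2 hk) (nat_mem_nat.2 hl) h)
    rw [h1]
    refine ⟨(Set.finite_Iio n).image _, ?_⟩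
    rw [hinj'.ncard_image, Set.ncard_eq_toFinset_card']
    simp
  · rintro ⟨hfin, hn⟩
    have : Finite {z : M | z ∈ x} := hfin
    have e : {z : M | z ∈ x} ≃ Fin n := by
      have h2 : Nat.card {z : M | z ∈ x} = n := hn
      exact Finite.equivFinOfCardEq h2
    have hrange : (Set.range (fun k : Fin n => op (nat k.1) (e.symm k).1)).Finite :=
      Set.finite_range _
    obtain ⟨u, hu, -⟩ := exists_finite_set (M := M) hrange
    have hrel : ∀ a b : M, op a b ∈ u ↔ ∃ k : Fin n, nat k.1 = a ∧ (e.symm k).1 = b := by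
      intro a b
      rw [hu, Set.mem_range]
      exact exists_congr fun k => op_inj
    have hfn : Fn u (nat n) x := by
      constructor
      · intro z hz
        obtain ⟨k, rfl⟩ := (hu z).1 hz
        exact ⟨nat k.1, nat_mem_nat.2 k.2, (e.symm k).1, (e.symm k).2, rfl⟩
      · intro a ha
        obtain ⟨k, hk, rfl⟩ := (mem_nat n a).1 ha
        refine ⟨(e.symm ⟨k, hk⟩).1, (hrel _ _).2 ⟨⟨k, hk⟩, rfl, rfl⟩, fun c hc => ?_⟩
        obtain ⟨l, hl, rfl⟩ := (hrel _ _).1 hc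
        obtain rfl : l = ⟨k, hk⟩ := Fin.ext (nat_inj.1 hl)
        rfl
    have hap : ∀ k : Fin n, ap u (nat k.1) = (e.symm k).1 := fun k =>
      ap_eq hfn ((hrel _ _).2 ⟨k, rfl, rfl⟩)
    refine ⟨u, hfn, fun a ha => ?_, fun k l hk hl h => ?_⟩
    · refine ⟨nat (e ⟨a, ha⟩).1, nat_mem_nat.2 (e ⟨a, ha⟩).2, ?_⟩
      rw [hap, e.symm_apply_apply]
    · obtain ⟨k, hk', rfl⟩ := (mem_nat n k).1 hk
      obtain ⟨l, hl', rfl⟩ := (mem_nat n l).1 hl
      have h1 := hap ⟨k, hk'⟩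
      have h2 := hap ⟨l, hl'⟩
      simp only at h1 h2
      rw [h1, h2] at h
      have h3 := e.symm.injective (Subtype.ext h)
      rw [Fin.mk.injEq] at h3
      rw [h3]

theorem isFin_sep_iff (P : M → Prop) [Dfn (fun v : ℕ → M => P (v 0))] :
    IsFin (sep L P) ↔ {x : {x : M // x ∈ L} | P x.1}.Finite := by
  rw [isFin_iff]
  constructor
  · intro h
    exact (h.preimage (f := Subtype.val) Subtype.val_injective.injOn).subset
      fun x hx => (mem_sep _ _ _).2 ⟨x.2, hx⟩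
  · intro h
    refine (h.image Subtype.val).subset fun z hz => ?_
    obtain ⟨h1, h2⟩ := (mem_sep _ _ _).1 hz
    exact ⟨⟨z, h1⟩, h2, rfl⟩

theorem ncard_sep (P : M → Prop) [Dfn (fun v : ℕ → M => P (v 0))] :
    {z : M | z ∈ sep L P}.ncard = {x : {x : M // x ∈ L} | P x.1}.ncard := by
  rw [← Set.ncard_image_of_injective _ Subtype.val_injective]
  congr 1
  ext z
  constructor
  · intro hz
    obtain ⟨h1, h2⟩ := (mem_sep _ _ _).1 hz
    exact ⟨⟨z, h1⟩, h2, rfl⟩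
  · rintro ⟨x, hx, rfl⟩
    exact (mem_sep _ _ _).2 ⟨x.2, hx⟩

/-- half-open intervals -/
noncomputable def ico (L R x y : M) : M := sep L (fun z => (z = x ∨ op x z ∈ R) ∧ op z y ∈ R)

theorem mem_ico {x y z : M} : z ∈ ico L R x y ↔
    z ∈ L ∧ (z = x ∨ op x z ∈ R) ∧ op z y ∈ R := by
  rw [ico, mem_sep]

instance DT.ico' (L R : M) {t u : (ℕ → M) → M} [ht : DT t] [hu : DT u] :
    DT (fun v => ico L R (t v) (u v)) :=
  DT.app2 (Dfn.congr (S := fun v : ℕ → M => ∀ z : M, z ∈ v 0 ↔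
      z ∈ L ∧ (z = v 1 ∨ op (v 1) z ∈ R) ∧ op z (v 2) ∈ R) (by exact inferInstance)
    fun v => ⟨fun h z => by rw [h, mem_ico], fun h => mext fun z => by rw [h, mem_ico]⟩) ht hu

/-- closed intervals with unordered endpoints -/
noncomputable def itv (L R x y : M) : M := sep L (fun z =>
  ((z = x ∨ op x z ∈ R) ∧ (z = y ∨ op z y ∈ R)) ∨ ((z = y ∨ op y z ∈ R) ∧ (z = x ∨ op z x ∈ R)))

theorem mem_itv {x y z : M} : z ∈ itv L R x y ↔ z ∈ L ∧
    (((z = x ∨ op x z ∈ R) ∧ (z = y ∨ op z y ∈ R)) ∨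
      ((z = y ∨ op y z ∈ R) ∧ (z = x ∨ op z x ∈ R))) := by
  rw [itv, mem_sep]

instance DT.itv' (L R : M) {t u : (ℕ → M) → M} [ht : DT t] [hu : DT u] :
    DT (fun v => itv L R (t v) (u v)) :=
  DT.app2 (Dfn.congr (S := fun v : ℕ → M => ∀ z : M, z ∈ v 0 ↔ z ∈ L ∧
    (((z = v 1 ∨ op (v 1) z ∈ R) ∧ (z = v 2 ∨ op z (v 2) ∈ R)) ∨
      ((z = v 2 ∨ op (v 2) z ∈ R) ∧ (z = v 1 ∨ op z (v 1) ∈ R)))) (by exact inferInstance)
    fun v => ⟨fun h z => by rw [h, mem_itv], fun h => mext fun z => by rw [h, mem_itv]⟩) ht hu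

/-- the elements at a finite distance above `x` -/
noncomputable def upp (L R x : M) : M :=
  sep L (fun y => (y = x ∨ op x y ∈ R) ∧ IsFin (ico L R x y)) (h := by exact inferInstance)

theorem mem_upp {x y : M} : y ∈ upp L R x ↔
    y ∈ L ∧ (y = x ∨ op x y ∈ R) ∧ IsFin (ico L R x y) := by
  rw [upp, mem_sep]

theorem LO.onto_om (h : LO L R) {x₀ : M} (hx₀ : x₀ ∈ L) (hinf : ¬ IsFin (upp L R x₀)) :
    ∃ f : M, Fn f L om ∧ ∀ n : M, n ∈ (om : M) → ∃ y : M, y ∈ L ∧ ap f y = n := by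
  classical
  obtain ⟨I, hI⟩ := h.exists_lin
  have hIle : ∀ x y : {x : M // x ∈ L}, x ≤ y ↔ (y.1 = x.1 ∨ op x.1 y.1 ∈ R) := by
    intro x y
    rw [le_iff_lt_or_eq, or_comm]
    exact or_congr ⟨fun h => by rw [h], fun h => Subtype.ext h.symm⟩ (hI x y)
  have hIlt : ∀ x y : {x : M // x ∈ L}, x < y ↔ op x.1 y.1 ∈ R := hI
  have hico : ∀ x y : {x : M // x ∈ L}, {z : {x : M // x ∈ L} | z.1 ∈ ico L R x.1 y.1} =
      Set.Ico x y := by
    intro x y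
    ext z
    rw [Set.mem_ofPred_eq, mem_ico, Set.mem_Ico, hIle, hIlt]
    exact ⟨fun h => h.2, fun h => ⟨z.2, h⟩⟩
  have hicofin : ∀ x y : {x : M // x ∈ L}, IsFin (ico L R x.1 y.1) ↔ (Set.Ico x y).Finite := by
    intro x y
    rw [← hico, isFin_iff]
    constructor
    · intro h
      exact h.preimage (f := Subtype.val) Subtype.val_injective.injOn
    · intro h
      refine (h.image Subtype.val).subset fun z hz => ?_
      exact ⟨⟨z, (mem_ico.1 hz).1⟩, hz, rfl⟩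
  have hicocard : ∀ x y : {x : M // x ∈ L}, {z : M | z ∈ ico L R x.1 y.1}.ncard =
      (Set.Ico x y).ncard := by
    intro x y
    rw [← hico, ← Set.ncard_image_of_injective _ Subtype.val_injective]
    congr 1
    ext z
    constructor
    · intro hz
      exact ⟨⟨z, (mem_ico.1 hz).1⟩, hz, rfl⟩
    · rintro ⟨x, hx, rfl⟩
      exact hx
  have hinf' : {y : {x : M // x ∈ L} | ⟨x₀, hx₀⟩ ≤ y ∧ (Set.Ico ⟨x₀, hx₀⟩ y).Finite}.Infinite := by
    intro hfin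
    apply hinf
    rw [isFin_iff]
    refine (hfin.image Subtype.val).subset fun z hz => ?_
    obtain ⟨h1, h2, h3⟩ := mem_upp.1 hz
    exact ⟨⟨z, h1⟩, ⟨(hIle _ _).2 h2, (hicofin ⟨x₀, hx₀⟩ ⟨z, h1⟩).1 h3⟩, rfl⟩
  have hfn : Fn (Helper73.Sym.rel L om (fun y n => (y ∈ upp L R x₀ ∧ Crd (ico L R x₀ y) n) ∨
      (¬ y ∈ upp L R x₀ ∧ n = emp)) (h := by exact inferInstance)) L om := by
    refine rel_fn fun a ha => ?_
    by_cases h1 : a ∈ upp L R x₀
    · have h2 := (mem_upp.1 h1).2.2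
      rw [isFin_iff] at h2
      refine ⟨nat ({z : M | z ∈ ico L R x₀ a}.ncard), nat_mem_om _,
        Or.inl ⟨h1, crd_iff.2 ⟨h2, rfl⟩⟩, fun c hc hc' => ?_⟩
      obtain ⟨k, rfl⟩ := (mem_om c).1 hc
      rcases hc' with hc' | hc'
      · rw [(crd_iff.1 hc'.2).2]
      · exact absurd h1 hc'.1
    · refine ⟨emp, by rw [emp_eq]; exact nat_mem_om 0, Or.inr ⟨h1, rfl⟩, fun c _ hc' => ?_⟩
      rcases hc' with hc' | hc'
      · exact absurd hc'.1 h1
      · exact hc'.2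
  refine ⟨_, hfn, fun n hn => ?_⟩
  obtain ⟨n, rfl⟩ := (mem_om n).1 hn
  obtain ⟨y, h1, h2, h3⟩ := exists_ncard hinf' n
  refine ⟨y.1, y.2, ap_eq hfn ((op_mem_rel _ _ _ _ _).2 ⟨y.2, nat_mem_om n, Or.inl ⟨?_, ?_⟩⟩)⟩
  · exact mem_upp.2 ⟨y.2, (hIle _ _).1 h1, (hicofin ⟨x₀, hx₀⟩ y).2 h2⟩
  · refine crd_iff.2 ⟨?_, ?_⟩
    · have := (hicofin ⟨x₀, hx₀⟩ y).2 h2
      rwa [isFin_iff] at this
    · rw [hicocard ⟨x₀, hx₀⟩ y, h3]

/-- **Every infinite linear order maps onto a dense linear order without endpoints.** -/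
theorem LO.exists_onto_dlo (h : LO L R) (hinf : ¬ IsFin L) :
    ∃ J R' f : M, DLO J R' ∧ Fn f L J ∧ ∀ j : M, j ∈ J → ∃ y : M, y ∈ L ∧ ap f y = j := by
  classical
  -- from a map onto the natural numbers
  have hom : (∃ f : M, Fn f L om ∧ ∀ n : M, n ∈ (om : M) → ∃ y : M, y ∈ L ∧ ap f y = n) →
      ∃ J R' f : M, DLO J R' ∧ Fn f L J ∧ ∀ j : M, j ∈ J → ∃ y : M, y ∈ L ∧ ap f y = j := by
    rintro ⟨f, hf, hfs⟩
    obtain ⟨g, hg, hgs⟩ := exists_om_onto (M := M)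
    obtain ⟨k, hk, hks⟩ := exists_comp hf hg hfs hgs
    exact ⟨jQ, rQ, k, dlo_Q, hk, hks⟩
  by_cases hup : ∃ x₀ : M, x₀ ∈ L ∧ ¬ IsFin (upp L R x₀)
  · obtain ⟨x₀, hx₀, hx₀'⟩ := hup
    exact hom (h.onto_om hx₀ hx₀')
  obtain ⟨R', hR', hRR'⟩ := h.rev
  by_cases hdown : ∃ x₀ : M, x₀ ∈ L ∧ ¬ IsFin (upp L R' x₀)
  · obtain ⟨x₀, hx₀, hx₀'⟩ := hdown
    exact hom (hR'.onto_om hx₀ hx₀')
  push Not at hup hdown
  obtain ⟨I, hI⟩ := h.exists_lin
  have hIle : ∀ x y : {x : M // x ∈ L}, x ≤ y ↔ (y.1 = x.1 ∨ op x.1 y.1 ∈ R) := by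
    intro x y
    rw [le_iff_lt_or_eq, or_comm]
    exact or_congr ⟨fun h => by rw [h], fun h => Subtype.ext h.symm⟩ (hI x y)
  have hIlt : ∀ x y : {x : M // x ∈ L}, x < y ↔ op x.1 y.1 ∈ R := hI
  have hitv : ∀ x y : {x : M // x ∈ L}, {z : {x : M // x ∈ L} | z.1 ∈ itv L R x.1 y.1} =
      Set.uIcc x y := by
    intro x y
    ext z
    rw [Set.mem_ofPred_eq, mem_itv, Set.mem_uIcc, hIle, hIle, hIle, hIle]
    have e1 : (z.1 = y.1 ∨ op z.1 y.1 ∈ R) ↔ (y.1 = z.1 ∨ op z.1 y.1 ∈ R) :=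
      or_congr eq_comm Iff.rfl
    have e2 : (z.1 = x.1 ∨ op z.1 x.1 ∈ R) ↔ (x.1 = z.1 ∨ op z.1 x.1 ∈ R) :=
      or_congr eq_comm Iff.rfl
    rw [e1, e2]
    exact ⟨fun h => h.2, fun h => ⟨z.2, h⟩⟩
  have hitvfin : ∀ x y : {x : M // x ∈ L}, IsFin (itv L R x.1 y.1) ↔ (Set.uIcc x y).Finite := by
    intro x y
    rw [← hitv, isFin_iff]
    constructor
    · intro h
      exact h.preimage (f := Subtype.val) Subtype.val_injective.injOn
    · intro h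
      refine (h.image Subtype.val).subset fun z hz => ?_
      exact ⟨⟨z, (mem_itv.1 hz).1⟩, hz, rfl⟩
  have hcls : ∀ x y : {x : M // x ∈ L}, y ∈ cls x ↔ IsFin (itv L R x.1 y.1) := fun x y =>
    (hitvfin x y).symm
  -- the classes are finite
  have hclsfin : ∀ x : {x : M // x ∈ L}, (cls x).Finite := by
    intro x
    have h1 := hup x.1 x.2
    have h2 := hdown x.1 x.2
    rw [isFin_iff] at h1 h2
    refine ((h1.preimage (f := Subtype.val) Subtype.val_injective.injOn).union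
      (h2.preimage (f := Subtype.val) Subtype.val_injective.injOn)).subset fun y hy => ?_
    rw [hcls, isFin_iff] at hy
    rcases h.tot x.1 y.1 x.2 y.2 with h3 | h3 | h3
    · left
      refine mem_upp.2 ⟨y.2, Or.inl h3.symm, ?_⟩
      rw [isFin_iff]
      refine hy.subset fun z hz => ?_
      obtain ⟨h4, h5, h6⟩ := mem_ico.1 hz
      exact mem_itv.2 ⟨h4, Or.inl ⟨h5, Or.inr h6⟩⟩
    · left
      refine mem_upp.2 ⟨y.2, Or.inr h3, ?_⟩
      rw [isFin_iff]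
      refine hy.subset fun z hz => ?_
      obtain ⟨h4, h5, h6⟩ := mem_ico.1 hz
      exact mem_itv.2 ⟨h4, Or.inl ⟨h5, Or.inr h6⟩⟩
    · right
      refine mem_upp.2 ⟨y.2, Or.inr ((hRR' _ _ x.2 y.2).2 h3), ?_⟩
      rw [isFin_iff]
      refine hy.subset fun z hz => ?_
      obtain ⟨h4, h5, h6⟩ := mem_ico.1 hz
      rw [hRR' _ _ x.2 h4] at h5
      rw [hRR' _ _ h4 y.2] at h6
      exact mem_itv.2 ⟨h4, Or.inr ⟨Or.inr h6, h5⟩⟩
  have hLinf : Infinite {x : M // x ∈ L} := by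
    rw [isFin_iff] at hinf
    exact Set.infinite_coe_iff.2 hinf
  -- least elements of the classes
  let J₀ : M := sep L (fun x => ∀ y : M, y ∈ L → IsFin (itv L R x y) → (y = x ∨ op x y ∈ R))
    (h := by exact inferInstance)
  have mJ₀ : ∀ x : {x : M // x ∈ L}, x.1 ∈ J₀ ↔ ∀ y ∈ cls x, x ≤ y := by
    intro x
    have : x.1 ∈ J₀ ↔ x.1 ∈ L ∧ ∀ y : M, y ∈ L → IsFin (itv L R x.1 y) →
      (y = x.1 ∨ op x.1 y ∈ R) := mem_sep _ _ _
    rw [this]
    constructor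
    · rintro ⟨-, h1⟩ y hy
      exact (hIle _ _).2 (h1 y.1 y.2 ((hcls x y).1 hy))
    · intro h1
      exact ⟨x.2, fun y hy hy' => (hIle x ⟨y, hy⟩).1 (h1 ⟨y, hy⟩ ((hcls x ⟨y, hy⟩).2 hy'))⟩
  have hJ₀L : ∀ x : M, x ∈ J₀ → x ∈ L := fun x hx => ((mem_sep _ _ _).1 hx).1
  let J : M := sep J₀ (fun x => (∃ y : M, y ∈ J₀ ∧ op y x ∈ R) ∧ ∃ y : M, y ∈ J₀ ∧ op x y ∈ R)
  have mJ : ∀ x : M, x ∈ J ↔ x ∈ J₀ ∧ (∃ y : M, y ∈ J₀ ∧ op y x ∈ R) ∧
      ∃ y : M, y ∈ J₀ ∧ op x y ∈ R := fun x => mem_sep _ _ _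
  have hJL : ∀ x : M, x ∈ J → x ∈ L := fun x hx => hJ₀L x ((mJ x).1 hx).1
  have hdense : ∀ x y : M, x ∈ J₀ → y ∈ J₀ → op x y ∈ R →
      ∃ z : M, z ∈ J₀ ∧ op x z ∈ R ∧ op z y ∈ R := by
    intro x y hx hy hxy
    obtain ⟨z, h1, h2, h3⟩ := dense_mn hclsfin ((mJ₀ ⟨x, hJ₀L x hx⟩).1 hx)
      ((mJ₀ ⟨y, hJ₀L y hy⟩).1 hy) ((hIlt ⟨x, hJ₀L x hx⟩ ⟨y, hJ₀L y hy⟩).2 hxy)
    exact ⟨z.1, (mJ₀ z).2 h1, (hIlt _ _).1 h2, (hIlt _ _).1 h3⟩
  have hJne : ∃ x : M, x ∈ J := by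
    have h1 := infinite_mn hclsfin
    obtain ⟨s, hs, hs3⟩ := h1.exists_subset_card_eq 3
    obtain ⟨a, b, c, hab, hac, hbc, rfl⟩ := Finset.card_eq_three.1 hs3
    have ha : a.1 ∈ J₀ := (mJ₀ a).2 (hs (by simp))
    have hb : b.1 ∈ J₀ := (mJ₀ b).2 (hs (by simp))
    have hc : c.1 ∈ J₀ := (mJ₀ c).2 (hs (by simp))
    have key : ∀ a b c : {x : M // x ∈ L}, a.1 ∈ J₀ → b.1 ∈ J₀ → c.1 ∈ J₀ → a < b → b < c →
        b.1 ∈ J := fun a b c ha hb hc h1 h2 =>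
      (mJ _).2 ⟨hb, ⟨a.1, ha, (hIlt _ _).1 h1⟩, c.1, hc, (hIlt _ _).1 h2⟩
    rcases lt_or_gt_of_ne hab with h1 | h1 <;> rcases lt_or_gt_of_ne hbc with h2 | h2 <;>
      rcases lt_or_gt_of_ne hac with h3 | h3
    · exact ⟨_, key a b c ha hb hc h1 h2⟩
    · exact ⟨_, key a b c ha hb hc h1 h2⟩
    · exact ⟨_, key a c b ha hc hb h3 h2⟩
    · exact ⟨_, key c a b hc ha hb h3 h1⟩
    · exact ⟨_, key b a c hb ha hc h1 h3⟩
    · exact ⟨_, key b c a hb hc ha h2 h3⟩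
    · exact ⟨_, key c b a hc hb ha h2 h1⟩
    · exact ⟨_, key c b a hc hb ha h2 h1⟩
  have hDLO : DLO J R := by
    refine ⟨fun x hx => h.irr x (hJL x hx), fun x y z hx hy hz => h.trans x y z (hJL x hx)
      (hJL y hy) (hJL z hz), fun x y hx hy => h.tot x y (hJL x hx) (hJL y hy), ?_, ?_, ?_, hJne⟩
    · intro x y hx hy hxy
      obtain ⟨z, h1, h2, h3⟩ := hdense x y ((mJ x).1 hx).1 ((mJ y).1 hy).1 hxy
      exact ⟨z, (mJ z).2 ⟨h1, ⟨x, ((mJ x).1 hx).1, h2⟩, y, ((mJ y).1 hy).1, h3⟩, h2, h3⟩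
    · intro x hx
      obtain ⟨hx0, ⟨y, hy, hyx⟩, -⟩ := (mJ x).1 hx
      obtain ⟨z, h1, h2, h3⟩ := hdense y x hy hx0 hyx
      exact ⟨z, (mJ z).2 ⟨h1, ⟨y, hy, h2⟩, x, hx0, h3⟩, h3⟩
    · intro x hx
      obtain ⟨hx0, -, y, hy, hxy⟩ := (mJ x).1 hx
      obtain ⟨z, h1, h2, h3⟩ := hdense x y hx0 hy hxy
      exact ⟨z, (mJ z).2 ⟨h1, ⟨x, hx0, h2⟩, y, hy, h3⟩, h2⟩
  obtain ⟨j₀, hj₀⟩ := hJne
  -- the retraction onto `J`: points of `J` are fixed
  have hfn : Fn (Helper73.Sym.rel L J (fun x j => j = x ∨ (¬ x ∈ J ∧ j = j₀))) L J := by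
    refine rel_fn fun a ha => ?_
    by_cases h1 : a ∈ J
    · refine ⟨a, h1, Or.inl rfl, fun c _ hc => ?_⟩
      rcases hc with hc | hc
      · exact hc
      · exact absurd h1 hc.1
    · refine ⟨j₀, hj₀, Or.inr ⟨h1, rfl⟩, fun c hc hc' => ?_⟩
      rcases hc' with hc' | hc'
      · rw [hc'] at hc; exact absurd hc h1
      · exact hc'.2
  exact ⟨J, R, _, hDLO, hfn, fun j hj => ⟨j, hJL j hj, ap_eq hfn ((op_mem_rel _ _ _ _ _).2
    ⟨hJL j hj, hj, Or.inl rfl⟩)⟩⟩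

end

end Pool.Agent.Helper9.INSHC
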