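import Pool.Agent.Helper9.INSHC.Cuts
import Pool.Agent.Helper73.Sym.Ctb

/-!
In ZF: the natural numbers can be mapped onto a dense linear order without endpoints (the
nonempty finite sets of natural numbers, ordered lexicographically).
-/

namespace Pool.Agent.Helper9.INSHC

open Pool.Agent.Helper9.CRT Pool.Agent.Helper73.Sym

set_option synthInstance.maxSize 2000

section

variable {M : Type*} [Membership M M] [StdZF M]

/-- the nonempty finite sets of natural numbers -/
noncomputable def jQ : M := sep (pw om) (fun s => IsFin s ∧ ∃ m : M, m ∈ s)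

theorem mem_jQ {s : M} : s ∈ (jQ : M) ↔ Sub s om ∧ IsFin s ∧ ∃ m : M, m ∈ s := by
  rw [jQ, mem_sep, mem_pw]

/-- `s < t`: the least element of the symmetric difference belongs to `t` -/
def LtQ (s t : M) : Prop := ∃ m : M, m ∈ t ∧ ¬ m ∈ s ∧ ∀ k : M, k ∈ m → (k ∈ s ↔ k ∈ t)

instance Dfn.ltQ {t u : (ℕ → M) → M} [ht : DT t] [hu : DT u] : Dfn (fun v => LtQ (t v) (u v)) :=
  Dfn.rel2 (R := LtQ) (inferInstanceAs (Dfn (fun v : ℕ → M =>
    ∃ m : M, m ∈ v 1 ∧ ¬ m ∈ v 0 ∧ ∀ k : M, k ∈ m → (k ∈ v 0 ↔ k ∈ v 1)))) ht hu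

noncomputable def rQ : M := Helper73.Sym.rel (jQ : M) jQ (fun s t => LtQ s t)

theorem mem_rQ {s t : M} : op s t ∈ (rQ : M) ↔ s ∈ (jQ : M) ∧ t ∈ (jQ : M) ∧ LtQ s t := by
  rw [rQ, op_mem_rel]

theorem exists_big {s : M} (hs : IsFin s) : ∃ N : ℕ, ∀ i : ℕ, (nat i : M) ∈ s → i < N := by
  rw [isFin_iff] at hs
  have h1 : {i : ℕ | (nat i : M) ∈ s}.Finite := by
    refine Set.Finite.preimage (f := fun i : ℕ => (nat i : M)) ?_ hs
    intro a _ b _ h
    exact nat_inj.1 h
  obtain ⟨N, hN⟩ := h1.bddAbove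
  exact ⟨N + 1, fun i hi => Nat.lt_succ_of_le (hN hi)⟩

theorem isFin_insert {s : M} (hs : IsFin s) (a : M) : IsFin (un2 s (upair a a)) :=
  isFin_un2 hs (isFin_sing a)

theorem dlo_Q : DLO (jQ : M) rQ := by
  classical
  refine ⟨?_, ?_, ?_, ?_, ?_, ?_, ?_⟩
  · intro x _ h
    obtain ⟨m, h1, h2, -⟩ := (mem_rQ.1 h).2.2
    exact h2 h1
  · intro s t u hs ht hu h1 h2
    obtain ⟨a, ha1, ha2, ha3⟩ := (mem_rQ.1 h1).2.2
    obtain ⟨b, hb1, hb2, hb3⟩ := (mem_rQ.1 h2).2.2
    obtain ⟨i, rfl⟩ := (mem_om a).1 ((mem_jQ.1 ht).1 a ha1)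
    obtain ⟨j, rfl⟩ := (mem_om b).1 ((mem_jQ.1 hu).1 b hb1)
    refine mem_rQ.2 ⟨hs, hu, ?_⟩
    rcases lt_trichotomy i j with h | h | h
    · refine ⟨nat i, (hb3 _ (nat_mem_nat.2 h)).1 ha1, ha2, fun k hk => ?_⟩
      rw [ha3 k hk]
      obtain ⟨l, hl, rfl⟩ := (mem_nat _ _).1 hk
      exact hb3 _ (nat_mem_nat.2 (hl.trans h))
    · subst h; exact absurd ha1 hb2
    · refine ⟨nat j, hb1, fun h3 => hb2 ((ha3 _ (nat_mem_nat.2 h)).1 h3), fun k hk => ?_⟩
      rw [← hb3 k hk]
      obtain ⟨l, hl, rfl⟩ := (mem_nat _ _).1 hk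
      exact ha3 _ (nat_mem_nat.2 (hl.trans h))
  · intro s t hs ht
    by_cases hst : s = t
    · exact Or.inl hst
    right
    have hex : ∃ i : ℕ, ¬ ((nat i : M) ∈ s ↔ (nat i : M) ∈ t) := by
      by_contra hno
      push Not at hno
      apply hst
      apply mext
      intro z
      by_cases hz : z ∈ (om : M)
      · obtain ⟨i, rfl⟩ := (mem_om z).1 hz
        exact hno i
      · exact iff_of_false (fun h => hz ((mem_jQ.1 hs).1 z h))
          (fun h => hz ((mem_jQ.1 ht).1 z h))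
    have h1 := Nat.find_spec hex
    have h2 : ∀ k : M, k ∈ (nat (Nat.find hex) : M) → (k ∈ s ↔ k ∈ t) := by
      intro k hk
      obtain ⟨l, hl, rfl⟩ := (mem_nat _ _).1 hk
      exact not_not.1 (Nat.find_min hex hl)
    by_cases h3 : (nat (Nat.find hex) : M) ∈ s
    · right
      refine mem_rQ.2 ⟨ht, hs, _, h3, fun h4 => h1 (iff_of_true h3 h4), fun k hk => (h2 k hk).symm⟩
    · left
      refine mem_rQ.2 ⟨hs, ht, _, ?_, h3, h2⟩
      by_contra h4
      exact h1 (iff_of_false h3 h4)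
  · intro s t hs ht h
    obtain ⟨m, h1, h2, h3⟩ := (mem_rQ.1 h).2.2
    obtain ⟨i, rfl⟩ := (mem_om m).1 ((mem_jQ.1 ht).1 m h1)
    obtain ⟨N₀, hN₀⟩ := exists_big (mem_jQ.1 hs).2.1
    set N := max N₀ (i + 1) with hN
    have hNs : ¬ (nat N : M) ∈ s := fun h4 => by
      have := hN₀ N h4
      omega
    have hu : un2 s (upair (nat N) (nat N)) ∈ (jQ : M) := by
      refine mem_jQ.2 ⟨fun z hz => ?_, isFin_insert (mem_jQ.1 hs).2.1 _, nat N, by simp⟩
      rw [mem_un2, mem_upair, or_self] at hz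
      rcases hz with hz | rfl
      · exact (mem_jQ.1 hs).1 z hz
      · exact nat_mem_om N
    refine ⟨_, hu, mem_rQ.2 ⟨hs, hu, nat N, by simp, hNs, fun k hk => ?_⟩,
      mem_rQ.2 ⟨hu, ht, nat i, h1, ?_, fun k hk => ?_⟩⟩
    · rw [mem_un2, mem_upair, or_self]
      refine ⟨fun h => Or.inl h, fun h => h.resolve_right ?_⟩
      rintro rfl
      exact not_mem_self _ hk
    · rw [mem_un2, mem_upair, or_self, nat_inj]
      rintro (h4 | h4)
      · exact h2 h4
      · omega
    · rw [← h3 k hk, mem_un2, mem_upair, or_self]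
      refine ⟨fun h => h.resolve_right ?_, fun h => Or.inl h⟩
      rintro rfl
      have := nat_mem_nat.1 hk
      omega
  · intro s hs
    obtain ⟨a, ha⟩ := (mem_jQ.1 hs).2.2
    have hex : ∃ i : ℕ, (nat i : M) ∈ s := by
      obtain ⟨i, rfl⟩ := (mem_om a).1 ((mem_jQ.1 hs).1 a ha)
      exact ⟨i, ha⟩
    have h1 := Nat.find_spec hex
    set i := Nat.find hex with hi
    have hu : upair (nat (i + 1)) (nat (i + 1)) ∈ (jQ : M) := by
      refine mem_jQ.2 ⟨fun z hz => ?_, isFin_sing _, nat (i + 1), by simp⟩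
      simp only [mem_upair, or_self] at hz
      rw [hz]; exact nat_mem_om _
    refine ⟨_, hu, mem_rQ.2 ⟨hu, hs, nat i, h1, ?_, fun k hk => ?_⟩⟩
    · simp only [mem_upair, or_self, nat_inj]; omega
    · obtain ⟨l, hl, rfl⟩ := (mem_nat _ _).1 hk
      refine iff_of_false ?_ (Nat.find_min hex hl)
      simp only [mem_upair, or_self, nat_inj]; omega
  · intro s hs
    obtain ⟨N, hN⟩ := exists_big (mem_jQ.1 hs).2.1
    have hNs : ¬ (nat N : M) ∈ s := fun h4 => lt_irrefl _ (hN N h4)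
    have hu : un2 s (upair (nat N) (nat N)) ∈ (jQ : M) := by
      refine mem_jQ.2 ⟨fun z hz => ?_, isFin_insert (mem_jQ.1 hs).2.1 _, nat N, by simp⟩
      rw [mem_un2, mem_upair, or_self] at hz
      rcases hz with hz | rfl
      · exact (mem_jQ.1 hs).1 z hz
      · exact nat_mem_om N
    refine ⟨_, hu, mem_rQ.2 ⟨hs, hu, nat N, by simp, hNs, fun k hk => ?_⟩⟩
    rw [mem_un2, mem_upair, or_self]
    refine ⟨fun h => Or.inl h, fun h => h.resolve_right ?_⟩
    rintro rfl
    exact not_mem_self _ hk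
  · exact ⟨upair (nat 0) (nat 0), mem_jQ.2 ⟨fun z hz => by
      simp only [mem_upair, or_self] at hz
      rw [hz]; exact nat_mem_om _, isFin_sing _, nat 0, by simp⟩⟩

/-! ### enumeration of the finite sets of natural numbers -/

theorem exists_code (S : Finset ℕ) : ∃ x : M, ∀ z : M, z ∈ x ↔ ∃ i ∈ S, z = nat i := by
  obtain ⟨x, hx, -⟩ := exists_finite_set (M := M) ((S.finite_toSet).image (fun i => (nat i : M)))
  refine ⟨x, fun z => ?_⟩
  rw [hx]
  constructor
  · rintro ⟨i, hi, rfl⟩; exact ⟨i, hi, rfl⟩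
  · rintro ⟨i, hi, rfl⟩; exact ⟨i, hi, rfl⟩

/-- the set coded by a finite set of numbers -/
noncomputable def code (S : Finset ℕ) : M := (exists_code S).choose

theorem mem_code {S : Finset ℕ} {z : M} : z ∈ (code S : M) ↔ ∃ i ∈ S, z = nat i :=
  (exists_code S).choose_spec z

theorem nat_mem_code {S : Finset ℕ} {i : ℕ} : (nat i : M) ∈ (code S : M) ↔ i ∈ S := by
  rw [mem_code]
  constructor
  · rintro ⟨j, hj, h⟩
    rwa [nat_inj.1 h]
  · intro h; exact ⟨i, h, rfl⟩

/-- the least number not in `s` -/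
noncomputable def lst (s : M) : M := sep om (fun k => Sub (suc k) s) (h := by exact inferInstance)

theorem mem_lst {s z : M} : z ∈ lst s ↔ z ∈ (om : M) ∧ Sub (suc z) s := by
  rw [lst, mem_sep]

instance DT.lst' {t : (ℕ → M) → M} [ht : DT t] : DT (fun v => lst (t v)) :=
  DT.app1 (Dfn.congr (S := fun v : ℕ → M => ∀ z : M, z ∈ v 0 ↔ z ∈ (om : M) ∧ Sub (suc z) (v 1))
    (by exact inferInstance) fun v => ⟨fun h z => by rw [h, mem_lst], fun h => mext fun z => by
      rw [h, mem_lst]⟩) ht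

/-- binary successor -/
noncomputable def inc (s : M) : M := un2 (df s (lst s)) (upair (lst s) (lst s))

instance DT.inc' {t : (ℕ → M) → M} [ht : DT t] : DT (fun v => inc (t v)) :=
  inferInstanceAs (DT (fun v => un2 (df (t v) (lst (t v))) (upair (lst (t v)) (lst (t v)))))

theorem sum_two_pow (m : ℕ) : (∑ i ∈ Finset.range m, 2 ^ i) + 1 = 2 ^ m := by
  induction m with
  | zero => simp
  | succ m ih => rw [Finset.sum_range_succ, pow_succ]; omega

theorem iter_inc (N : ℕ) : ∀ S : Finset ℕ, ∑ i ∈ S, 2 ^ i = N → inc^[N] (emp : M) = code S := by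
  induction N with
  | zero =>
    intro S hS
    have : S = ∅ := by
      rw [Finset.eq_empty_iff_forall_notMem]
      intro i hi
      have := Finset.sum_eq_zero_iff.1 hS i hi
      exact absurd this (by positivity)
    subst this
    exact mext fun z => iff_of_false (mem_emp z) (by rw [mem_code]; simp)
  | succ N ih =>
    intro S hS
    have hne : S.Nonempty := by
      rw [Finset.nonempty_iff_ne_empty]
      rintro rfl
      simp at hS
    set m := S.min' hne with hm
    have hmS : m ∈ S := S.min'_mem hne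
    have hmin : ∀ i ∈ S, m ≤ i := fun i hi => S.min'_le i hi
    set S' := S.erase m ∪ Finset.range m with hS'
    have hdisj : Disjoint (S.erase m) (Finset.range m) := by
      rw [Finset.disjoint_left]
      intro i hi hi'
      have h1 := hmin i (Finset.mem_of_mem_erase hi)
      rw [Finset.mem_range] at hi'
      omega
    have hsum : ∑ i ∈ S', 2 ^ i = N := by
      rw [hS', Finset.sum_union hdisj]
      have h1 := Finset.sum_erase_add S (fun i => 2 ^ i) hmS
      have h2 := sum_two_pow m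
      omega
    rw [Function.iterate_succ_apply', ih S' hsum]
    have hlst : lst (code S' : M) = nat m := by
      apply mext
      intro z
      rw [mem_lst, mem_nat]
      constructor
      · rintro ⟨hz, hsub⟩
        obtain ⟨k, rfl⟩ := (mem_om z).1 hz
        refine ⟨k, ?_, rfl⟩
        by_contra hk
        have h1 := hsub (nat m) (by rw [suc_nat, nat_mem_nat]; omega)
        rw [nat_mem_code, hS', Finset.mem_union, Finset.mem_erase, Finset.mem_range] at h1
        rcases h1 with h1 | h1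
        · exact h1.1 rfl
        · exact lt_irrefl _ h1
      · rintro ⟨k, hk, rfl⟩
        refine ⟨nat_mem_om k, fun w hw => ?_⟩
        rw [suc_nat] at hw
        obtain ⟨l, hl, rfl⟩ := (mem_nat _ _).1 hw
        rw [nat_mem_code, hS', Finset.mem_union, Finset.mem_range]
        right; omega
    apply mext
    intro z
    rw [inc, hlst, mem_un2, mem_df, mem_upair, or_self, mem_code, mem_code]
    constructor
    · rintro (⟨⟨i, hi, rfl⟩, h2⟩ | rfl)
      · rw [nat_mem_nat] at h2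
        rw [hS', Finset.mem_union, Finset.mem_range] at hi
        exact ⟨i, Finset.mem_of_mem_erase (hi.resolve_right h2), rfl⟩
      · exact ⟨m, hmS, rfl⟩
    · rintro ⟨i, hi, rfl⟩
      by_cases him : i = m
      · right; rw [him]
      · left
        refine ⟨⟨i, ?_, rfl⟩, ?_⟩
        · rw [hS', Finset.mem_union, Finset.mem_erase]
          exact Or.inl ⟨him, hi⟩
        · rw [nat_mem_nat]
          have := hmin i hi
          omega

/-- composition of surjections -/
theorem exists_comp {X Y Z f g : M} (hf : Fn f X Y) (hg : Fn g Y Z)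
    (hfs : ∀ y : M, y ∈ Y → ∃ x : M, x ∈ X ∧ ap f x = y)
    (hgs : ∀ z : M, z ∈ Z → ∃ y : M, y ∈ Y ∧ ap g y = z) :
    ∃ h : M, Fn h X Z ∧ ∀ z : M, z ∈ Z → ∃ x : M, x ∈ X ∧ ap h x = z := by
  refine ⟨lam X (fun x => ap g (ap f x)), lam_fn fun x hx => ap_mem hg (ap_mem hf hx),
    fun z hz => ?_⟩
  obtain ⟨y, hy, rfl⟩ := hgs z hz
  obtain ⟨x, hx, rfl⟩ := hfs y hy
  exact ⟨x, hx, ap_lam hx⟩

theorem exists_om_onto : ∃ f : M, Fn f om jQ ∧ ∀ s : M, s ∈ (jQ : M) → ∃ n : M, n ∈ (om : M) ∧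
    ap f n = s := by
  classical
  have hit : Dfn (fun v : ℕ → M => v 0 = iter inc emp (v 1)) := Dfn.iter inc emp
  have hit' : ∀ {t : (ℕ → M) → M} [DT t], DT (fun v => iter inc emp (t v)) :=
    fun {t} ht => DT.app1 hit ht
  have h1 : DT (fun v : ℕ → M => iter inc emp (v 0)) := hit'
  have h2 : DT (fun v : ℕ → M => iter inc emp (v 1)) := hit'
  -- a default element
  have hd : upair (nat 0) (nat 0) ∈ (jQ : M) := mem_jQ.2 ⟨fun z hz => by
      simp only [mem_upair, or_self] at hz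
      rw [hz]; exact nat_mem_om _, isFin_sing _, nat 0, by simp⟩
  have hD : Dfn (fun v : ℕ → M => ∃ a : M, a ∈ (om : M) ∧ ∃ b : M, b ∈ (jQ : M) ∧ v 0 = op a b ∧
      (b = iter inc emp a ∨ (¬ iter inc emp a ∈ (jQ : M) ∧ b = upair (nat 0) (nat 0)))) := by
    have e1 : Dfn (fun v : ℕ → M => v 0 = iter inc emp (v 1)) := hit
    have e2 : Dfn (fun v : ℕ → M => iter inc emp (v 1) ∈ (jQ : M)) := inferInstance
    have e3 : Dfn (fun v : ℕ → M => v 0 ∈ (jQ : M) ∧ v 2 = op (v 1) (v 0) ∧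
      (v 0 = iter inc emp (v 1) ∨ (¬ iter inc emp (v 1) ∈ (jQ : M) ∧
        v 0 = upair (nat 0) (nat 0)))) := inferInstance
    have e4 := Dfn.ex (S := fun b v => b ∈ (jQ : M) ∧ v 1 = op (v 0) b ∧
      (b = iter inc emp (v 0) ∨ (¬ iter inc emp (v 0) ∈ (jQ : M) ∧
        b = upair (nat 0) (nat 0)))) (h := e3)
    exact Dfn.ex (S := fun a v => a ∈ (om : M) ∧ ∃ b : M, b ∈ (jQ : M) ∧ v 0 = op a b ∧
      (b = iter inc emp a ∨ (¬ iter inc emp a ∈ (jQ : M) ∧ b = upair (nat 0) (nat 0))))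
      (h := Dfn.and (h2 := e4))
  have hfn : Fn (Helper73.Sym.rel (om : M) jQ (fun a b => b = iter inc emp a ∨
      (¬ iter inc emp a ∈ (jQ : M) ∧ b = upair (nat 0) (nat 0)))) om jQ := by
    refine rel_fn fun a ha => ?_
    by_cases h3 : iter inc emp a ∈ (jQ : M)
    · refine ⟨_, h3, Or.inl rfl, fun c _ hc => ?_⟩
      rcases hc with hc | hc
      · exact hc
      · exact absurd h3 hc.1
    · refine ⟨_, hd, Or.inr ⟨h3, rfl⟩, fun c hcJ hc => ?_⟩
      rcases hc with hc | hc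
      · exact absurd (hc ▸ hcJ) h3
      · exact hc.2
  refine ⟨_, hfn, fun s hs => ?_⟩
  -- the code of `s`
  obtain ⟨N, hN⟩ := exists_big (mem_jQ.1 hs).2.1
  let S : Finset ℕ := (Finset.range N).filter fun i => (nat i : M) ∈ s
  have hS : (code S : M) = s := by
    apply mext
    intro z
    rw [mem_code]
    constructor
    · rintro ⟨i, hi, rfl⟩
      exact (Finset.mem_filter.1 hi).2
    · intro hz
      obtain ⟨i, rfl⟩ := (mem_om z).1 ((mem_jQ.1 hs).1 z hz)
      exact ⟨i, Finset.mem_filter.2 ⟨Finset.mem_range.2 (hN i hz), hz⟩, rfl⟩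
  refine ⟨nat (∑ i ∈ S, 2 ^ i), nat_mem_om _, ap_eq hfn ((op_mem_rel _ _ _ _ _).2
    ⟨nat_mem_om _, hs, Or.inl ?_⟩)⟩
  rw [iter_nat, iter_inc _ S rfl, hS]

end

end Pool.Agent.Helper9.INSHC
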